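import Pool.Agent.Helper22_CIG.HalfOrbit

/-!
Amenable subgroups of the topological full group of a minimal homeomorphism: without two infinite
commuting subgroups and without infinite locally finite subgroups there is an invariant finitely
additive probability giving measure at least `1/3` to all supports.
-/

namespace Pool.Agent.H22.CIG

set_option linter.unusedSectionVars false

open Filter Topology Pool.Agent.H50.CIG Pool.Agent.H67.CIP

variable {X : Type*} [TopologicalSpace X]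

namespace Piece

variable {T : X ≃ₜ X} {G : Type*} [Group G] [MulAction G X] (p : Piece T G)

include p in
theorem isOpen_supp (g : G) : IsOpen (supp g : Set X) := by
  have h1 : (supp g : Set X) = p.n g ⁻¹' {k : ℤ | k ≠ 0} := by
    ext x
    show g • x ≠ x ↔ p.n g x ≠ 0
    rw [Ne, Ne, p.eq_zero_iff]
  rw [h1]
  exact (isOpen_discrete _).preimage (p.cont g)

include p in
theorem s_pos [CompactSpace X] [FaithfulSMul G X]
    (hT : ∀ x : X, Dense (Set.range fun i : ℤ => (T ^ i) x)) (μ : IMean (T : X → X)) (b : G)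
    (hb : b ≠ 1) : 0 < μ.I (s X b) := by
  classical
  have hne : (supp b : Set X).Nonempty := by
    by_contra hemp
    apply hb
    apply FaithfulSMul.eq_of_smul_eq_smul (α := X)
    intro x
    by_contra hx
    apply hemp
    refine ⟨x, ?_⟩
    rw [one_smul] at hx
    exact hx
  obtain ⟨L, hL⟩ := syndetic T hT _ (p.isOpen_supp b) hne
  have h1 : ∀ z, (1 : ℝ) ≤ ∑ i ∈ Finset.Icc (-(L : ℤ)) L, s X b ((T ^ i) z) := by
    intro z
    obtain ⟨i, hi, hz⟩ := hL z
    have h2 : s X b ((T ^ i) z) = 1 := s_one hz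
    refine h2.symm.le.trans ?_
    exact Finset.single_le_sum (f := fun i => s X b ((T ^ i) z)) (fun i _ => s_nonneg _ _)
      (Finset.mem_Icc.mpr (abs_le.mp hi))
  have h2 := μ.mono _ _ (Bd.const 1) (Bd.sum _ (fun i z => s X b ((T ^ i) z))
    fun i _ => (bd_s b).comp _) h1
  rw [μ.one, μ.sum _ (fun i z => s X b ((T ^ i) z)) fun i _ => (bd_s b).comp _] at h2
  have h3 : ∀ i ∈ Finset.Icc (-(L : ℤ)) L, μ.I (fun z => s X b ((T ^ i) z)) = μ.I (s X b) :=
    fun i _ => μ.zpow i _ (bd_s b)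
  rw [Finset.sum_congr rfl h3, Finset.sum_const, nsmul_eq_mul] at h2
  by_contra hcon
  push Not at hcon
  have h4 : ((Finset.Icc (-(L : ℤ)) L).card : ℝ) * μ.I (s X b) ≤ 0 :=
    mul_nonpos_of_nonneg_of_nonpos (Nat.cast_nonneg _) hcon
  linarith

include p in
/-- the main theorem -/
theorem main [CompactSpace X] [Nonempty X] [FaithfulSMul G X]
    (hT : ∀ x : X, Dense (Set.range fun i : ℤ => (T ^ i) x))
    (Ω : ℕ → Finset G) (hΩ : ∀ n, (Ω n).Nonempty)
    (hF : ∀ h : G, Tendsto (fun n => prop (Ω n) (fun g => h * g ∉ Ω n)) atTop (𝓝 0))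
    (hinv : ∀ m : FAP X, (∀ (g : G) (S : Set X), m.m {x | g • x ∈ S} = m.m S) →
      ∃ a : G, a ∉ fc G ∧ m.m (supp a) < 1 / 3) :
    CI G ∨ ∃ L : Subgroup G, LocFin L ∧ (L : Set G).Infinite := by
  classical
  by_contra hcon
  push Not at hcon
  obtain ⟨hCI, hL⟩ := hcon
  obtain ⟨x₀⟩ := ‹Nonempty X›
  obtain ⟨μ⟩ := exists_iMean (T : X → X) x₀
  -- an element outside of the FC-centre
  obtain ⟨a₀, ha₀⟩ : ∃ a : G, a ∉ fc G := by
    obtain ⟨A, hA, δ₀, -, hev⟩ := alternative Ω hΩ hF {a | a ∉ fc G} (fun a => (supp a : Set X))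
      (1 / 3) (by
        intro m hm
        obtain ⟨a, ha, ha'⟩ := hinv m hm
        exact ⟨a, ha, ha'⟩)
    obtain ⟨n, hn⟩ := hev.exists
    have hone : 0 < μ.I (fun _ => 1) := by
      rw [μ.one]
      exact one_pos
    obtain ⟨a, ha, -⟩ := hn (μ.weighted (fun _ => 1) (Bd.const 1) (fun _ => zero_le_one) hone)
    exact ⟨a, hA a ha⟩
  obtain ⟨C, δ, hδ0, hδ1, hC⟩ := choose_conj hCI hL Ω hΩ hF (1 / 3) (by norm_num) hinv
  have hbound : ∃ R : ℕ, ∀ u ∈ C, ∀ x, |p.n u x| ≤ (R : ℤ) := by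
    choose R hR using fun u : G => cont_bound (p.n u) (p.cont u)
    refine ⟨C.sup R, fun u hu x => (hR u x).trans ?_⟩
    exact_mod_cast Finset.le_sup (f := R) hu
  obtain ⟨R, hR⟩ := hbound
  set θ : ℝ := (3 * δ + 1) / 2 with hθ
  have hθ1 : θ < 1 := by rw [hθ]; linarith
  have hθ0 : 0 < θ := by rw [hθ]; linarith
  have hθ3 : 0 < θ - 3 * δ := by rw [hθ]; linarith
  set K : ℝ := 2 * R * δ / (θ - 3 * δ) + 1 with hK
  have hK0 : 0 < K := by
    have : 0 ≤ 2 * (R : ℝ) * δ / (θ - 3 * δ) := by positivity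
    rw [hK]
    linarith
  have hK1 : (2 * R + 3 * K) * δ ≤ θ * K := by
    have h1 : (θ - 3 * δ) * K = 2 * R * δ + (θ - 3 * δ) := by
      rw [hK]
      field_simp
    nlinarith
  let P : G → ℝ := fun b => p.N μ b + K * μ.I (s X b)
  have hN0 : ∀ b, 0 ≤ p.N μ b := fun b => μ.nonneg _ (p.bd b) fun x => abs_nonneg _
  have hPpos : ∀ b, b ∉ fc G → 0 < P b := by
    intro b hb
    have h1 : b ≠ 1 := by
      rintro rfl
      exact hb (Subgroup.one_mem _)
    have h2 := p.s_pos hT μ b h1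
    have h3 := hN0 b
    show 0 < p.N μ b + K * μ.I (s X b)
    have h4 := mul_pos hK0 h2
    linarith
  have hstep : ∀ b, b ∉ fc G → ∃ b', b' ∉ fc G ∧ P b' ≤ θ * P b := by
    intro b hb
    have hb1 : b ≠ 1 := by
      rintro rfl
      exact hb (Subgroup.one_mem _)
    have hsb := p.s_pos hT μ b hb1
    let M : ℝ := 2 * R + 3 * K
    have hM0 : 0 < M := by positivity
    let w : X → ℝ := fun x => 2 * |(p.n b x : ℝ)| + M * s X b x
    have bd1 : Bd (fun x => 2 * |(p.n b x : ℝ)|) := (Bd.const 2).mul (p.bd b)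
    have bd2 : Bd (fun x => M * s X b x) := (Bd.const M).mul (bd_s b)
    have hw : Bd w := bd1.add bd2
    have hw0 : ∀ x, 0 ≤ w x := by
      intro x
      have h1 := s_nonneg (X := X) b x
      have h2 := abs_nonneg (p.n b x : ℝ)
      show 0 ≤ 2 * |(p.n b x : ℝ)| + M * s X b x
      positivity
    have hIw : μ.I w = 2 * p.N μ b + M * μ.I (s X b) := by
      show μ.I (fun x => 2 * |(p.n b x : ℝ)| + M * s X b x) = _
      rw [μ.add _ _ bd1 bd2, μ.smul 2 _ (p.bd b), μ.smul M _ (bd_s b)]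
      rfl
    have hIw0 : 0 < μ.I w := by
      rw [hIw]
      have h1 := hN0 b
      have h2 := mul_pos hM0 hsb
      linarith
    obtain ⟨u, hu, hcm, hν⟩ := hC (μ.weighted w hw hw0 hIw0) b hb
    refine ⟨cm u b, hcm, ?_⟩
    have hν' : μ.I (fun x => s X u x * w x) ≤ δ * μ.I w := by
      have h1 : μ.I (fun x => s X u x * w x) / μ.I w ≤ δ := hν
      rwa [div_le_iff₀ hIw0] at h1
    have bd3 : Bd (fun x => s X u x * |(p.n b x : ℝ)|) := (bd_s u).mul (p.bd b)
    have bd4 : Bd (fun x => s X u x * s X b x) := (bd_s u).mul (bd_s b)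
    have hsplit : μ.I (fun x => s X u x * w x) =
        2 * μ.I (fun x => s X u x * |(p.n b x : ℝ)|) + M * μ.I (fun x => s X u x * s X b x) := by
      have h1 : (fun x => s X u x * w x) = fun x =>
          2 * (s X u x * |(p.n b x : ℝ)|) + M * (s X u x * s X b x) := by
        funext x
        show s X u x * (2 * |(p.n b x : ℝ)| + M * s X b x) = _
        ring
      rw [h1, μ.add _ _ ((Bd.const 2).mul bd3) ((Bd.const M).mul bd4), μ.smul 2 _ bd3,
        μ.smul M _ bd4]
    have hub : μ.I (fun x => s X b x * |(p.n u x : ℝ)|) ≤ R * μ.I (fun x => s X u x * s X b x) := by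
      rw [← μ.smul _ _ bd4]
      apply μ.mono _ _ ((bd_s b).mul (p.bd u)) ((Bd.const _).mul bd4)
      intro x
      by_cases hux : u • x = x
      · have h1 := (p.eq_zero_iff u x).mpr hux
        rw [h1, s_zero hux]
        simp
      · rw [s_one hux, one_mul, mul_comm]
        apply mul_le_mul_of_nonneg_right _ (s_nonneg _ _)
        exact_mod_cast hR u hu x
    have h1 := p.commutator μ u b
    have h2 := p.support_cm μ u b
    show p.N μ (cm u b) + K * μ.I (s X (cm u b)) ≤ θ * (p.N μ b + K * μ.I (s X b))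
    have h3 : K * μ.I (s X (cm u b)) ≤ K * (3 * μ.I (fun x => s X u x * s X b x)) :=
      mul_le_mul_of_nonneg_left h2 hK0.le
    have h4 : p.N μ (cm u b) + K * μ.I (s X (cm u b)) ≤ μ.I (fun x => s X u x * w x) := by
      rw [hsplit]
      have h5 : M * μ.I (fun x => s X u x * s X b x) =
          2 * (R * μ.I (fun x => s X u x * s X b x)) +
            K * (3 * μ.I (fun x => s X u x * s X b x)) := by
        show (2 * R + 3 * K) * μ.I (fun x => s X u x * s X b x) = _
        ring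
      rw [h5]
      linarith
    have h5 : δ * μ.I w ≤ θ * (p.N μ b + K * μ.I (s X b)) := by
      rw [hIw]
      have e1 : δ * (2 * p.N μ b + M * μ.I (s X b)) =
          2 * δ * p.N μ b + (2 * R + 3 * K) * δ * μ.I (s X b) := by
        show δ * (2 * p.N μ b + (2 * R + 3 * K) * μ.I (s X b)) = _
        ring
      have e2 : 2 * δ * p.N μ b ≤ θ * p.N μ b := by
        apply mul_le_mul_of_nonneg_right _ (hN0 b)
        linarith
      have e3 : (2 * R + 3 * K) * δ * μ.I (s X b) ≤ θ * K * μ.I (s X b) :=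
        mul_le_mul_of_nonneg_right hK1 hsb.le
      rw [e1]
      calc _ ≤ θ * p.N μ b + θ * K * μ.I (s X b) := add_le_add e2 e3
        _ = _ := by ring
    exact h4.trans (hν'.trans h5)
  choose! nx hnx1 hnx2 using hstep
  let b : ℕ → G := fun j => Nat.rec a₀ (fun _ b => nx b) j
  have hb : ∀ j, b j ∉ fc G := by
    intro j
    induction j with
    | zero => exact ha₀
    | succ j ih => exact hnx1 _ ih
  have hPb : ∀ j, P (b j) ≤ θ ^ j * P a₀ := by
    intro j
    induction j with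
    | zero =>
      rw [pow_zero, one_mul]
      exact le_refl (P a₀)
    | succ j ih =>
      calc P (b (j + 1)) ≤ θ * P (b j) := hnx2 _ (hb j)
        _ ≤ θ * (θ ^ j * P a₀) := mul_le_mul_of_nonneg_left ih hθ0.le
        _ = θ ^ (j + 1) * P a₀ := by ring
  have hP0 := hPpos a₀ ha₀
  have hlim : Tendsto (fun j : ℕ => θ ^ j * P a₀) atTop (𝓝 0) := by
    have h1 := (tendsto_pow_atTop_nhds_zero_of_lt_one hθ0.le hθ1).mul_const (P a₀)
    rwa [zero_mul] at h1
  obtain ⟨j₀, hj₀⟩ := (hlim.eventually (gt_mem_nhds (show (0 : ℝ) < 1 - θ by linarith))).exists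
  have hsum : ∀ J : ℕ, ∑ j ∈ Finset.range J, p.N μ (b (j₀ + j)) < 1 := by
    intro J
    have h1 : ∀ j ∈ Finset.range J, p.N μ (b (j₀ + j)) ≤ θ ^ j₀ * P a₀ * θ ^ j := by
      intro j _
      have h2 := hPb (j₀ + j)
      have h3 : p.N μ (b (j₀ + j)) ≤ P (b (j₀ + j)) := by
        show p.N μ (b (j₀ + j)) ≤ p.N μ (b (j₀ + j)) + K * μ.I (s X (b (j₀ + j)))
        have h4 : 0 ≤ μ.I (s X (b (j₀ + j))) := μ.nonneg _ (bd_s _) fun x => s_nonneg _ _
        have h5 := mul_nonneg hK0.le h4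
        linarith
      calc _ ≤ θ ^ (j₀ + j) * P a₀ := h3.trans h2
        _ = _ := by
            rw [pow_add]
            ring
    have h2 := Finset.sum_le_sum h1
    rw [← Finset.mul_sum] at h2
    have h3 := mul_neg_geom_sum θ J
    have h4 : 0 < θ ^ J := pow_pos hθ0 J
    have h5 : 0 < 1 - θ := by linarith
    have h6 : ∑ j ∈ Finset.range J, θ ^ j < 1 / (1 - θ) := by
      rw [lt_div_iff₀ h5, mul_comm]
      linarith
    have h7 : 0 < θ ^ j₀ * P a₀ := mul_pos (pow_pos hθ0 _) hP0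
    calc _ ≤ θ ^ j₀ * P a₀ * ∑ j ∈ Finset.range J, θ ^ j := h2
      _ < θ ^ j₀ * P a₀ * (1 / (1 - θ)) := mul_lt_mul_of_pos_left h6 h7
      _ < (1 - θ) * (1 / (1 - θ)) := mul_lt_mul_of_pos_right hj₀ (by positivity)
      _ = 1 := by field_simp
  obtain ⟨x, hx⟩ := p.exists_point μ (fun j => b (j₀ + j)) hsum
  have hfin : (p.keep x : Set G).Finite := hL _ (p.keep_locFin hT x)
  have : Finite (p.keep x) := hfin
  obtain ⟨g, hg⟩ := Finite.exists_infinite_fiber
    (fun j : ℕ => (⟨b (j₀ + j), hx j⟩ : p.keep x))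
  have hginf := Set.infinite_coe_iff.mp hg
  obtain ⟨j₁, hj₁⟩ := hginf.nonempty
  have hgb : b (j₀ + j₁) = (g : G) := congrArg Subtype.val hj₁
  have hgpos : 0 < P (g : G) := by
    rw [← hgb]
    exact hPpos _ (hb _)
  obtain ⟨J, hJ⟩ := eventually_atTop.mp (hlim.eventually (gt_mem_nhds hgpos))
  obtain ⟨j, hj, hjJ⟩ := hginf.exists_gt J
  have h1 : b (j₀ + j) = (g : G) := congrArg Subtype.val hj
  have h2 := hPb (j₀ + j)
  rw [h1] at h2
  have h3 := hJ (j₀ + j) (by omega)
  linarith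

end Piece

end Pool.Agent.H22.CIG
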