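import Pool.Agent.Helper22_CIG.DensityFC

/-!
Compactness: if for every invariant finitely additive probability some set of a family has measure
smaller than `δ`, then there are a finite subfamily and a Foelner set such that for every finitely
additive probability the average of the translates gives measure at most `δ' < δ` to a member of
the subfamily.  Together with the density theorem: the choice of a conjugate.
-/

namespace Pool.Agent.H22.CIG

open Filter Topology Pool.Agent.H50.CIG Pool.Agent.H67.CIP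

variable {G : Type*} [Group G] {X : Type*} [MulAction G X]

/-- the average of the translates -/
noncomputable def avg (Ω : Finset G) (ν : FAP X) (S : Set X) : ℝ :=
  (∑ g ∈ Ω, ν.m {x | g • x ∈ S}) / Ω.card

theorem avg_nonneg (Ω : Finset G) (ν : FAP X) (S : Set X) : 0 ≤ avg Ω ν S := by
  unfold avg
  have h1 : 0 ≤ ∑ g ∈ Ω, ν.m {x | g • x ∈ S} := Finset.sum_nonneg fun g _ => ν.nonneg _
  positivity

theorem avg_le_one (Ω : Finset G) (ν : FAP X) (S : Set X) : avg Ω ν S ≤ 1 := by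
  unfold avg
  apply div_le_one_of_le₀ _ (by positivity)
  calc ∑ g ∈ Ω, ν.m {x | g • x ∈ S} ≤ ∑ _g ∈ Ω, (1 : ℝ) :=
        Finset.sum_le_sum fun g _ => ν.le_one _
    _ = Ω.card := by simp

theorem avg_univ (Ω : Finset G) (hΩ : Ω.Nonempty) (ν : FAP X) : avg Ω ν Set.univ = 1 := by
  unfold avg
  have h1 : ∀ g ∈ Ω, ν.m {x | g • x ∈ Set.univ} = 1 := by
    intro g _
    have h2 : {x : X | g • x ∈ Set.univ} = Set.univ := by
      ext x
      simp
    rw [h2, ν.univ]
  rw [Finset.sum_congr rfl h1]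
  have : (Ω.card : ℝ) ≠ 0 := by exact_mod_cast hΩ.card_pos.ne'
  simp [this]

theorem avg_union (Ω : Finset G) (ν : FAP X) (A B : Set X) (h : Disjoint A B) :
    avg Ω ν (A ∪ B) = avg Ω ν A + avg Ω ν B := by
  unfold avg
  rw [← add_div, ← Finset.sum_add_distrib]
  congr 1
  apply Finset.sum_congr rfl
  intro g _
  rw [← ν.add]
  · rfl
  · rw [Set.disjoint_left]
    intro x hx hx'
    exact Set.disjoint_left.mp h hx hx'

theorem avg_shift (Ω : Finset G) (ν : FAP X) (h : G) (S : Set X) :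
    avg Ω ν S ≤ avg Ω ν {x | h • x ∈ S} + prop Ω (fun g => h⁻¹ * g ∉ Ω) := by
  classical
  unfold avg
  rw [prop_eq, ← add_div]
  apply div_le_div_of_nonneg_right _ (by positivity)
  have h1 : ∑ g ∈ Ω, ν.m {x | g • x ∈ S} =
      ∑ g ∈ Ω with h⁻¹ * g ∈ Ω, ν.m {x | g • x ∈ S} +
        ∑ g ∈ Ω with ¬ h⁻¹ * g ∈ Ω, ν.m {x | g • x ∈ S} :=
    (Finset.sum_filter_add_sum_filter_not Ω _ _).symm
  rw [h1]
  apply add_le_add
  · have h2 : ∑ g ∈ Ω with h⁻¹ * g ∈ Ω, ν.m {x | g • x ∈ S} =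
        ∑ g ∈ (Ω.filter fun g => h⁻¹ * g ∈ Ω).image (fun g => h⁻¹ * g),
          ν.m {x | (h * g) • x ∈ S} := by
      rw [Finset.sum_image fun a _ b _ hab => mul_left_cancel hab]
      apply Finset.sum_congr rfl
      intro g _
      rw [mul_inv_cancel_left]
    rw [h2]
    calc _ ≤ ∑ g ∈ Ω, ν.m {x | (h * g) • x ∈ S} := by
          apply Finset.sum_le_sum_of_subset_of_nonneg
          · intro g hg
            obtain ⟨k, hk, rfl⟩ := Finset.mem_image.mp hg
            exact (Finset.mem_filter.mp hk).2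
          · intro g _ _
            exact ν.nonneg _
      _ = _ := by
          apply Finset.sum_congr rfl
          intro g _
          congr 1
          ext x
          show (h * g) • x ∈ S ↔ h • g • x ∈ S
          rw [mul_smul]
  · calc ∑ g ∈ Ω with ¬ h⁻¹ * g ∈ Ω, ν.m {x | g • x ∈ S} ≤
        ∑ _g ∈ Ω with ¬ h⁻¹ * _g ∈ Ω, (1 : ℝ) := Finset.sum_le_sum fun g _ => ν.le_one _
      _ = _ := by simp

/-- compactness -/
theorem alternative (Ω : ℕ → Finset G) (hΩ : ∀ n, (Ω n).Nonempty)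
    (hF : ∀ h : G, Tendsto (fun n => prop (Ω n) (fun g => h * g ∉ Ω n)) atTop (𝓝 0))
    (E : Set G) (σ : G → Set X) (δ : ℝ)
    (hinv : ∀ m : FAP X, (∀ (g : G) (S : Set X), m.m {x | g • x ∈ S} = m.m S) →
      ∃ a ∈ E, m.m (σ a) < δ) :
    ∃ A : Finset G, (∀ a ∈ A, a ∈ E) ∧ ∃ δ' : ℝ, δ' < δ ∧ ∀ᶠ n in atTop, ∀ ν : FAP X, ∃ a ∈ A,
      avg (Ω n) ν (σ a) ≤ δ' := by
  classical
  by_contra hcon
  have h1 : ∀ i : Finset G × ℕ, ∃ (n : ℕ) (ν : FAP X), i.2 ≤ n ∧
      ∀ a ∈ i.1, a ∈ E → δ - 1 / ((i.2 : ℝ) + 1) < avg (Ω n) ν (σ a) := by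
    rintro ⟨A, k⟩
    by_contra hno
    apply hcon
    refine ⟨A.filter (· ∈ E), fun a ha => (Finset.mem_filter.mp ha).2,
      δ - 1 / ((k : ℝ) + 1), ?_, ?_⟩
    · have : (0 : ℝ) < 1 / ((k : ℝ) + 1) := by positivity
      linarith
    · rw [eventually_atTop]
      refine ⟨k, fun n hn ν => ?_⟩
      by_contra hno'
      push Not at hno'
      exact hno ⟨n, ν, hn, fun a ha haE => hno' a (Finset.mem_filter.mpr ⟨ha, haE⟩)⟩
  choose N ν hN hν using h1
  let U : Ultrafilter (Finset G × ℕ) := Ultrafilter.of atTop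
  have hU : (U : Filter (Finset G × ℕ)) ≤ atTop := Ultrafilter.of_le _
  let x : Set X → Finset G × ℕ → ℝ := fun S i => avg (Ω (N i)) (ν i) S
  have hlim : ∀ S : Set X, ∃ y : ℝ, Tendsto (x S) U (𝓝 y) := by
    intro S
    have h1 : ((U.map (x S) : Ultrafilter ℝ) : Filter ℝ) ≤ 𝓟 (Set.Icc 0 1) := by
      rw [Ultrafilter.coe_map, le_principal_iff, mem_map]
      filter_upwards with n
      exact ⟨avg_nonneg _ _ _, avg_le_one _ _ _⟩
    obtain ⟨y, -, hy⟩ := isCompact_Icc.ultrafilter_le_nhds (U.map (x S)) h1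
    exact ⟨y, hy⟩
  choose m hm using hlim
  let μ : FAP X :=
    { m := m
      nonneg := fun A => ge_of_tendsto' (hm A) fun n => avg_nonneg _ _ _
      univ := by
        apply tendsto_nhds_unique (hm Set.univ)
        apply tendsto_const_nhds.congr
        intro n
        exact (avg_univ _ (hΩ _) _).symm
      add := by
        intro A B hAB
        apply tendsto_nhds_unique (hm (A ∪ B))
        refine ((hm A).add (hm B)).congr fun n => ?_
        exact (avg_union _ _ _ _ hAB).symm }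
  have hμ : ∀ S, Tendsto (x S) U (𝓝 (μ.m S)) := hm
  have hNU : Tendsto N U atTop := by
    have h2 : Tendsto (fun i : Finset G × ℕ => i.2) atTop atTop := by
      rw [← prod_atTop_atTop_eq]
      exact tendsto_snd
    exact (tendsto_atTop_mono hN h2).mono_left hU
  have hle : ∀ (h : G) (S : Set X), μ.m S ≤ μ.m {y | h • y ∈ S} := by
    intro h S
    have h2 : Tendsto (fun i => x {y | h • y ∈ S} i +
        prop (Ω (N i)) (fun g => h⁻¹ * g ∉ Ω (N i))) U (𝓝 (μ.m {y | h • y ∈ S} + 0)) :=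
      (hμ _).add ((hF h⁻¹).comp hNU)
    rw [add_zero] at h2
    exact le_of_tendsto_of_tendsto' (hμ S) h2 fun i => avg_shift _ _ _ _
  obtain ⟨a, haE, ha⟩ := hinv μ (by
    intro g S
    apply le_antisymm _ (hle g S)
    have h2 := hle g⁻¹ {y | g • y ∈ S}
    have h3 : {y : X | g⁻¹ • y ∈ {y | g • y ∈ S}} = S := by
      ext y
      show g • g⁻¹ • y ∈ S ↔ y ∈ S
      rw [smul_inv_smul]
    rwa [h3] at h2)
  have h2 : δ ≤ μ.m (σ a) := by
    have h3 : Tendsto (fun i : Finset G × ℕ => δ - 1 / ((i.2 : ℝ) + 1)) U (𝓝 (δ - 0)) := by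
      have h4 : Tendsto (fun i : Finset G × ℕ => i.2) atTop atTop := by
        rw [← prod_atTop_atTop_eq]
        exact tendsto_snd
      exact (tendsto_const_nhds.sub
        (tendsto_one_div_add_atTop_nhds_zero_nat.comp h4)).mono_left hU
    rw [sub_zero] at h3
    apply le_of_tendsto_of_tendsto h3 (hμ _)
    have h4 : ∀ᶠ i : Finset G × ℕ in atTop, a ∈ i.1 := by
      rw [eventually_atTop]
      exact ⟨({a}, 0), fun i hi => hi.1 (Finset.mem_singleton_self a)⟩
    filter_upwards [hU h4] with i hi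
    exact (hν i a hi haE).le
  linarith

/-- the choice of a conjugate -/
theorem choose_conj (hCI : ¬ CI G) (hL : ∀ L : Subgroup G, LocFin L → (L : Set G).Finite)
    (Ω : ℕ → Finset G) (hΩ : ∀ n, (Ω n).Nonempty)
    (hF : ∀ h : G, Tendsto (fun n => prop (Ω n) (fun g => h * g ∉ Ω n)) atTop (𝓝 0))
    (δ : ℝ) (hδ : 0 < δ)
    (hinv : ∀ m : FAP X, (∀ (g : G) (S : Set X), m.m {x | g • x ∈ S} = m.m S) →
      ∃ a : G, a ∉ fc G ∧ m.m (supp a) < δ) :
    ∃ C : Finset G, ∃ δ' : ℝ, 0 < δ' ∧ δ' < δ ∧ ∀ ν : FAP X, ∀ b : G, b ∉ fc G →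
      ∃ u ∈ C, cm u b ∉ fc G ∧ ν.m (supp u) ≤ δ' := by
  classical
  obtain ⟨A, hA, δ₀, hδ₀, hev⟩ := alternative Ω hΩ hF {a | a ∉ fc G} (fun a => supp a) δ (by
    intro m hm
    obtain ⟨a, ha, ha'⟩ := hinv m hm
    exact ⟨a, ha, ha'⟩)
  set δ₁ := max δ₀ 0 with hδ₁
  have h0 : 0 ≤ δ₁ := le_max_right _ _
  have h1 : δ₁ < δ := max_lt hδ₀ hδ
  set δ₂ := (δ₁ + δ) / 2 with hδ₂
  have h2 : 0 < δ₂ := by positivity
  have h3 : δ₁ < δ₂ := by rw [hδ₂]; linarith
  have h4 : δ₂ < δ := by rw [hδ₂]; linarith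
  set η := (1 - δ₁ / δ₂) / 2 with hη
  have h5 : δ₁ / δ₂ < 1 := (div_lt_one h2).mpr h3
  have h6 : 0 < η := by rw [hη]; linarith
  have h7 : (1 - η) * δ₂ = (δ₂ + δ₁) / 2 := by
    rw [hη]
    field_simp
    ring
  have hdens : ∀ᶠ n in atTop, ∀ a ∈ A, ∀ b : G, b ∉ fc G →
      prop (Ω n) (fun g => cm (g⁻¹ * a * g) b ∈ fc G) ≤ η := by
    rw [Filter.eventually_all_finset]
    intro a ha
    exact density hCI hL Ω hΩ hF a (hA a ha) η h6
  obtain ⟨n, hn1, hn2⟩ := (hdens.and hev).exists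
  refine ⟨Finset.image₂ (fun a g => g⁻¹ * a * g) A (Ω n), δ₂, h2, h4, ?_⟩
  intro ν b hb
  obtain ⟨a, ha, hav⟩ := hn2 ν
  have hp := hn1 a ha b hb
  by_contra hcon
  push Not at hcon
  have hpos : (0 : ℝ) < (Ω n).card := by exact_mod_cast (hΩ n).card_pos
  have hgood : ∀ g ∈ Ω n, cm (g⁻¹ * a * g) b ∉ fc G → δ₂ < ν.m {x | g • x ∈ (supp a : Set X)} := by
    intro g hg hcm
    have h8 := hcon _ (Finset.mem_image₂_of_mem (f := fun a g => g⁻¹ * a * g) ha hg) hcm
    have h9 : {x | g • x ∈ (supp a : Set X)} = (supp (g⁻¹ * a * g) : Set X) := by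
      ext x
      exact (supp_conj a g x).symm
    rw [h9]
    exact h8
  have hcount : (1 - η) * (Ω n).card ≤ (((Ω n).filter fun g => cm (g⁻¹ * a * g) b ∉ fc G).card : ℝ) := by
    have h8 : (((Ω n).filter fun g => cm (g⁻¹ * a * g) b ∈ fc G).card : ℝ) +
        (((Ω n).filter fun g => ¬ cm (g⁻¹ * a * g) b ∈ fc G).card : ℝ) = (Ω n).card := by
      exact_mod_cast Finset.card_filter_add_card_filter_not _
    rw [prop_eq, div_le_iff₀ hpos] at hp
    linarith
  have hsum : δ₂ * (((Ω n).filter fun g => cm (g⁻¹ * a * g) b ∉ fc G).card : ℝ) ≤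
      ∑ g ∈ Ω n, ν.m {x | g • x ∈ (supp a : Set X)} := by
    calc δ₂ * (((Ω n).filter fun g => cm (g⁻¹ * a * g) b ∉ fc G).card : ℝ) =
        ∑ _g ∈ Ω n with cm (_g⁻¹ * a * _g) b ∉ fc G, δ₂ := by
          rw [Finset.sum_const, nsmul_eq_mul, mul_comm]
      _ ≤ ∑ g ∈ Ω n with cm (g⁻¹ * a * g) b ∉ fc G, ν.m {x | g • x ∈ (supp a : Set X)} := by
          apply Finset.sum_le_sum
          intro g hg
          exact (hgood g (Finset.mem_filter.mp hg).1 (Finset.mem_filter.mp hg).2).le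
      _ ≤ _ := Finset.sum_le_sum_of_subset_of_nonneg (Finset.filter_subset _ _)
          fun g _ _ => ν.nonneg _
  have hav' : ∑ g ∈ Ω n, ν.m {x | g • x ∈ (supp a : Set X)} ≤ δ₁ * (Ω n).card := by
    have h8 : avg (Ω n) ν (supp a) ≤ δ₁ := hav.trans (le_max_left _ _)
    unfold avg at h8
    rwa [div_le_iff₀ hpos] at h8
  have h8 : δ₂ * ((1 - η) * (Ω n).card) ≤ δ₁ * (Ω n).card :=
    (mul_le_mul_of_nonneg_left hcount h2.le).trans (hsum.trans hav')
  have h9 : δ₂ * ((1 - η) * (Ω n).card) = (δ₂ + δ₁) / 2 * (Ω n).card := by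
    rw [← h7]
    ring
  rw [h9] at h8
  have h10 := le_of_mul_le_mul_right h8 hpos
  linarith

end Pool.Agent.H22.CIG
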