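import Mathlib
import Pool.Agent.Helper50_CIG.Basic

/-!
In a group without two infinite commuting subgroups and without infinite locally finite subgroups,
with infinite conjugacy classes, centralizers have measure zero for every finitely additive
probability that is invariant under conjugation.  Uniform version for Foelner sequences.
-/

namespace Pool.Agent.H22.CIG

open Filter Topology

/-- finitely additive probabilities -/
structure FAP (Y : Type*) where
  m : Set Y → ℝ
  nonneg : ∀ A, 0 ≤ m A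
  univ : m Set.univ = 1
  add : ∀ A B, Disjoint A B → m (A ∪ B) = m A + m B

namespace FAP

variable {Y : Type*} (μ : FAP Y)

theorem mono {A B : Set Y} (h : A ⊆ B) : μ.m A ≤ μ.m B := by
  have h1 := μ.add A (B \ A) Set.disjoint_sdiff_right
  rw [Set.union_sdiff_cancel h] at h1
  have h2 := μ.nonneg (B \ A)
  linarith

theorem le_one (A : Set Y) : μ.m A ≤ 1 := by
  rw [← μ.univ]
  exact μ.mono (Set.subset_univ A)

theorem empty : μ.m ∅ = 0 := by
  have h := μ.add ∅ ∅ (by simp)
  rw [Set.union_empty] at h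
  linarith

theorem union_add_inter (A B : Set Y) : μ.m (A ∪ B) + μ.m (A ∩ B) = μ.m A + μ.m B := by
  have h1 := μ.add A (B \ A) Set.disjoint_sdiff_right
  have h2 := μ.add (A ∩ B) (B \ A)
    (Set.disjoint_left.mpr fun x hx hx' => hx'.2 hx.1)
  have h3 : (A ∩ B) ∪ (B \ A) = B := by
    ext x
    simp only [Set.mem_union, Set.mem_inter_iff, Set.mem_sdiff]
    tauto
  have h4 : A ∪ (B \ A) = A ∪ B := by
    ext x
    simp only [Set.mem_union, Set.mem_sdiff]
    tauto
  rw [h3] at h2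
  rw [h4] at h1
  linarith

theorem union_le (A B : Set Y) : μ.m (A ∪ B) ≤ μ.m A + μ.m B := by
  have h1 := μ.union_add_inter A B
  have h2 := μ.nonneg (A ∩ B)
  linarith

theorem finite_union_le (F : ℕ → Set Y) (K : ℕ) (c : ℝ) (h : ∀ i < K, μ.m (F i) ≤ c) :
    μ.m (⋃ i ∈ Finset.range K, F i) ≤ K * c := by
  induction K with
  | zero =>
    simp [μ.empty]
  | succ K ih =>
    have h1 : (⋃ i ∈ Finset.range (K + 1), F i) = (⋃ i ∈ Finset.range K, F i) ∪ F K := by
      rw [Finset.range_add_one, Finset.set_biUnion_insert, Set.union_comm]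
    have h2 := ih fun i hi => h i (Nat.lt_succ_of_lt hi)
    have h3 := h K (Nat.lt_succ_self K)
    have h4 := μ.union_le (⋃ i ∈ Finset.range K, F i) (F K)
    rw [h1]
    push_cast
    linarith

/-- almost disjoint sets of measure `≥ p` -/
theorem le_union (F : ℕ → Set Y) (K : ℕ) (p ε : ℝ) (hp : ∀ i < K, p ≤ μ.m (F i)) (hε : 0 ≤ ε)
    (h : ∀ i < K, ∀ j < i, μ.m (F j ∩ F i) ≤ ε) :
    K * p - K * (K * ε) ≤ μ.m (⋃ i ∈ Finset.range K, F i) := by
  induction K with
  | zero =>
    simp [μ.empty]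
  | succ K ih =>
    have h1 : (⋃ i ∈ Finset.range (K + 1), F i) = (⋃ i ∈ Finset.range K, F i) ∪ F K := by
      rw [Finset.range_add_one, Finset.set_biUnion_insert, Set.union_comm]
    have h2 := ih (fun i hi => hp i (Nat.lt_succ_of_lt hi))
      (fun i hi => h i (Nat.lt_succ_of_lt hi))
    have h3 := hp K (Nat.lt_succ_self K)
    have h4 := μ.union_add_inter (⋃ i ∈ Finset.range K, F i) (F K)
    have h5 : (⋃ i ∈ Finset.range K, F i) ∩ F K = ⋃ i ∈ Finset.range K, (F i ∩ F K) := by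
      rw [Set.iUnion₂_inter]
    have h6 := μ.finite_union_le (fun i => F i ∩ F K) K ε
      (fun i hi => h K (Nat.lt_succ_self K) i hi)
    rw [h5] at h4
    rw [h1]
    push_cast
    have h7 : (0 : ℝ) ≤ K := Nat.cast_nonneg K
    nlinarith [mul_nonneg h7 hε]

/-- in an infinite family of sets of measure `≥ p > 0` one meets infinitely many others in a set
of measure bounded below -/
theorem pairs (E : ℕ → Set Y) (M : Set ℕ) (hM : M.Infinite) (p : ℝ) (hp : 0 < p)
    (hE : ∀ n ∈ M, p ≤ μ.m (E n)) :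
    ∃ n ∈ M, ∃ ε : ℝ, 0 < ε ∧ {k ∈ M | ε ≤ μ.m (E n ∩ E k)}.Infinite := by
  by_contra hcon
  push Not at hcon
  have hcon' : ∀ n ∈ M, ∀ ε : ℝ, 0 < ε → {k ∈ M | ε ≤ μ.m (E n ∩ E k)}.Finite := by
    intro n hn ε hε
    exact hcon n hn ε hε
  obtain ⟨K, hK⟩ := exists_nat_gt (2 / p)
  have hK0 : (0 : ℝ) < K := lt_trans (by positivity) hK
  set ε := p / (2 * K) with hε
  have hε0 : 0 < ε := by positivity
  have hseq : ∀ L : ℕ, ∃ e : ℕ → ℕ, (∀ i < L, e i ∈ M) ∧
      ∀ i < L, ∀ j < i, μ.m (E (e j) ∩ E (e i)) ≤ ε := by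
    intro L
    induction L with
    | zero => exact ⟨id, fun i hi => absurd hi (Nat.not_lt_zero i), fun i hi => absurd hi (Nat.not_lt_zero i)⟩
    | succ L ih =>
      obtain ⟨e, he1, he2⟩ := ih
      have hfin : (⋃ i ∈ Finset.range L, {k ∈ M | ε ≤ μ.m (E (e i) ∩ E k)}).Finite := by
        apply Set.Finite.biUnion (Finset.finite_toSet _)
        intro i hi
        exact hcon' (e i) (he1 i (Finset.mem_range.mp (Finset.mem_coe.mp hi))) ε hε0
      obtain ⟨x, hx, hxn⟩ := hM.exists_notMem_finite hfin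
      refine ⟨Function.update e L x, ?_, ?_⟩
      · intro i hi
        by_cases hiL : i = L
        · rw [hiL, Function.update_self]
          exact hx
        · rw [Function.update_of_ne hiL]
          exact he1 i (by omega)
      · intro i hi j hj
        have hjL : j ≠ L := by omega
        rw [Function.update_of_ne hjL]
        by_cases hiL : i = L
        · subst hiL
          rw [Function.update_self]
          by_contra hlt
          push Not at hlt
          apply hxn
          rw [Set.mem_iUnion₂]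
          exact ⟨j, Finset.mem_range.mpr hj, hx, hlt.le⟩
        · rw [Function.update_of_ne hiL]
          exact he2 i (by omega) j hj
  obtain ⟨e, he1, he2⟩ := hseq K
  have h1 := μ.le_union (fun i => E (e i)) K p ε (fun i hi => hE _ (he1 i hi)) hε0.le he2
  have h2 := μ.le_one (⋃ i ∈ Finset.range K, E (e i))
  have h3 : (K : ℝ) * (K * ε) = K * p / 2 := by
    rw [hε]
    field_simp
  have h4 : 2 < K * p := by
    rw [div_lt_iff₀ hp] at hK
    exact hK
  rw [h3] at h1
  linarith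

theorem step (E : ℕ → Set Y) (S : Set Y) (M : Set ℕ) (hM : M.Infinite) (p : ℝ) (hp : 0 < p)
    (hE : ∀ n ∈ M, p ≤ μ.m (E n ∩ S)) :
    ∃ n ∈ M, ∃ (M' : Set ℕ) (q : ℝ), M'.Infinite ∧ 0 < q ∧ (∀ k ∈ M', n < k) ∧
      ∀ k ∈ M', q ≤ μ.m (E k ∩ (S ∩ E n)) := by
  obtain ⟨n, hn, ε, hε, hinf⟩ := μ.pairs (fun k => E k ∩ S) M hM p hp hE
  refine ⟨n, hn, {k ∈ M | ε ≤ μ.m ((E n ∩ S) ∩ (E k ∩ S))} \ Set.Iic n, ε,
    hinf.sdiff (Set.finite_Iic n), hε, ?_, ?_⟩
  · rintro k ⟨-, hk⟩
    rw [Set.mem_Iic, not_le] at hk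
    exact hk
  · rintro k ⟨⟨-, hk⟩, -⟩
    have h1 : (E n ∩ S) ∩ (E k ∩ S) = E k ∩ (S ∩ E n) := by
      ext x
      simp only [Set.mem_inter_iff]
      tauto
    rw [h1] at hk
    exact hk

/-- intersectivity -/
theorem intersective (E : ℕ → Set Y) (p : ℝ) (hp : 0 < p) (hE : ∀ n, p ≤ μ.m (E n)) :
    ∃ e : ℕ → ℕ, StrictMono e ∧ ∀ k, 0 < μ.m {x | ∀ i < k, x ∈ E (e i)} := by
  classical
  let St : Type _ := {s : Set Y × Set ℕ × ℝ // s.2.1.Infinite ∧ 0 < s.2.2 ∧
    ∀ n ∈ s.2.1, s.2.2 ≤ μ.m (E n ∩ s.1)}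
  have hstep : ∀ s : St, ∃ (n : ℕ) (t : St), n ∈ s.1.2.1 ∧ (∀ k ∈ t.1.2.1, n < k) ∧
      t.1.1 = s.1.1 ∩ E n := by
    rintro ⟨⟨S, M, p⟩, hM, hp, hE⟩
    obtain ⟨n, hn, M', q, h1, h2, h3, h4⟩ := μ.step E S M hM p hp hE
    exact ⟨n, ⟨(S ∩ E n, M', q), h1, h2, h4⟩, hn, h3, rfl⟩
  choose nx tx h1 h2 h3 using hstep
  let s0 : St := ⟨(Set.univ, Set.univ, p), Set.infinite_univ, hp, fun n _ => by
    rw [Set.inter_univ]
    exact hE n⟩
  let st : ℕ → St := fun k => Nat.rec s0 (fun _ s => tx s) k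
  have hst : ∀ k, st (k + 1) = tx (st k) := fun _ => rfl
  refine ⟨fun k => nx (st k), strictMono_nat_of_lt_succ fun k => ?_, fun k => ?_⟩
  · have h4 := h1 (st (k + 1))
    rw [hst] at h4 ⊢
    exact h2 (st k) _ h4
  · have hS : (st k).1.1 = {x | ∀ i < k, x ∈ E (nx (st i))} := by
      induction k with
      | zero =>
        ext x
        simp [st, s0]
      | succ k ih =>
        rw [hst, h3, ih]
        ext x
        constructor
        · rintro ⟨hx1, hx2⟩ i hi
          rcases Nat.lt_succ_iff_lt_or_eq.mp hi with h | h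
          · exact hx1 i h
          · rw [h]
            exact hx2
        · intro hx
          exact ⟨fun i hi => hx i (Nat.lt_succ_of_lt hi), hx k (Nat.lt_succ_self k)⟩
    rw [← hS]
    obtain ⟨n, hn⟩ := (st k).2.1.nonempty
    have h4 := (st k).2.2.2 n hn
    have h5 := μ.mono (Set.inter_subset_right : E n ∩ (st k).1.1 ⊆ (st k).1.1)
    have h6 := (st k).2.2.1
    linarith

theorem finite_zero (A : Set Y) (hA : A.Finite) (h : ∀ y ∈ A, μ.m {y} = 0) : μ.m A = 0 := by
  induction A, hA using Set.Finite.induction_on with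
  | empty => exact μ.empty
  | @insert y A _ _ ih =>
    have h1 := μ.union_le {y} A
    have h2 := ih fun z hz => h z (Set.mem_insert_of_mem y hz)
    have h3 := h y (Set.mem_insert y A)
    have h4 := μ.nonneg (insert y A)
    rw [Set.insert_eq] at h4 ⊢
    linarith

end FAP

/-- no infinite locally finite subgroup -/
def NLF (G : Type*) [Group G] : Prop :=
  ∀ H : Subgroup G, (∀ K : Subgroup G, K ≤ H → K.FG → Finite K) → Finite H

theorem mem_centralizer_closure {G : Type*} [Group G] (T : Set G) (x : G)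
    (h : ∀ t ∈ T, t * x = x * t) : ∀ y ∈ Subgroup.closure T, y * x = x * y := by
  have h1 : Subgroup.closure T ≤ Subgroup.centralizer {x} := by
    rw [Subgroup.closure_le]
    intro t ht
    rw [SetLike.mem_coe, Subgroup.mem_centralizer_singleton_iff]
    exact h t ht
  intro y hy
  exact Subgroup.mem_centralizer_singleton_iff.mp (h1 hy)

/-- centralizers have measure zero -/
theorem centralizer_null {G : Type*} [Group G] (hCI : ¬ Pool.Agent.H50.CIG.CI G) (hL : NLF G)
    (hcl : ∀ x : G, x ≠ 1 → {y : G | ∃ g : G, y = g * x * g⁻¹}.Infinite) (μ : FAP G)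
    (h1 : μ.m {1} = 0) (hconj : ∀ (g : G) (A : Set G), μ.m {x | g⁻¹ * x * g ∈ A} = μ.m A)
    (a : G) (ha : a ≠ 1) : μ.m {x | a * x = x * a} = 0 := by
  classical
  -- points have measure zero
  have hpt : ∀ y : G, μ.m {y} = 0 := by
    intro y
    by_cases hy : y = 1
    · rw [hy, h1]
    by_contra hne
    have hpos : 0 < μ.m {y} := lt_of_le_of_ne (μ.nonneg _) (Ne.symm hne)
    have hinf := hcl y hy
    have hval : ∀ z ∈ {z : G | ∃ g : G, z = g * y * g⁻¹}, μ.m {z} = μ.m {y} := by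
      rintro z ⟨g, rfl⟩
      rw [← hconj g {y}]
      congr 1
      ext x
      constructor
      · intro h
        have h' : x = g * y * g⁻¹ := h
        show g⁻¹ * x * g = y
        rw [h']
        group
      · intro h
        have h' : g⁻¹ * x * g = y := h
        show x = g * y * g⁻¹
        rw [← h']
        group
    obtain ⟨n, ε, hε, hinf'⟩ : ∃ (n : ℕ) (ε : ℝ), 0 < ε ∧
        {k : ℕ | ε ≤ μ.m ({(hinf.natEmbedding _ n : G)} ∩ {(hinf.natEmbedding _ k : G)})}.Infinite := by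
      obtain ⟨n, -, ε, hε, h⟩ := μ.pairs (fun k => {(hinf.natEmbedding _ k : G)}) Set.univ
        Set.infinite_univ (μ.m {y}) hpos (fun k _ => (hval _ (hinf.natEmbedding _ k).2).ge)
      refine ⟨n, ε, hε, h.mono ?_⟩
      rintro k ⟨-, hk⟩
      exact hk
    obtain ⟨k, hk, hkn⟩ := hinf'.exists_notMem_finite (Set.finite_singleton n)
    have h2 : ((hinf.natEmbedding _ n : G) ≠ (hinf.natEmbedding _ k : G)) := by
      intro h
      have h3 := (hinf.natEmbedding _).injective (Subtype.ext h)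
      exact hkn h3.symm
    have h3 : ({(hinf.natEmbedding _ n : G)} ∩ {(hinf.natEmbedding _ k : G)} : Set G) = ∅ := by
      ext x
      simp only [Set.mem_inter_iff, Set.mem_singleton_iff, Set.mem_empty_iff_false, iff_false]
      rintro ⟨rfl, h⟩
      exact h2 h
    have hk' : ε ≤ μ.m ({(hinf.natEmbedding _ n : G)} ∩ {(hinf.natEmbedding _ k : G)} : Set G) := hk
    rw [h3, μ.empty] at hk'
    linarith
  by_contra hne
  have hpos : 0 < μ.m {x | a * x = x * a} := lt_of_le_of_ne (μ.nonneg _) (Ne.symm hne)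
  have hinf := hcl a ha
  let b : ℕ → G := fun k => hinf.natEmbedding _ k
  have hbinj : Function.Injective b := fun i j h => (hinf.natEmbedding _).injective (Subtype.ext h)
  have hE : ∀ k, μ.m {x | a * x = x * a} ≤ μ.m {x | b k * x = x * b k} := by
    intro k
    obtain ⟨g, hg⟩ := (hinf.natEmbedding _ k).2
    have hg' : b k = g * a * g⁻¹ := hg
    rw [← hconj g {x | a * x = x * a}]
    apply μ.mono
    intro x hx
    have hx' : a * (g⁻¹ * x * g) = (g⁻¹ * x * g) * a := hx
    show b k * x = x * b k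
    rw [hg']
    have h2 : g * a * g⁻¹ * x = g * (a * (g⁻¹ * x * g)) * g⁻¹ := by group
    rw [h2, hx']
    group
  obtain ⟨e, he, hpe⟩ := μ.intersective (fun k => {x | b k * x = x * b k}) _ hpos hE
  let T : ℕ → Set G := fun k => {y | ∃ i < k, y = b (e i)}
  have hTmono : ∀ i j, i ≤ j → T i ⊆ T j := by
    rintro i j hij y ⟨l, hl, rfl⟩
    exact ⟨l, by omega, rfl⟩
  have hfin : ∀ k, Finite (Subgroup.closure (T k)) := by
    intro k
    by_contra hninf
    rw [not_finite_iff_infinite] at hninf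
    apply hCI
    have h2 : {x | ∀ i < k, x ∈ {x | b (e i) * x = x * b (e i)}}.Infinite := by
      intro hf
      have h3 := μ.finite_zero _ hf fun y _ => hpt y
      have h4 := hpe k
      rw [h3] at h4
      exact lt_irrefl _ h4
    refine ⟨Subgroup.closure (T k), Subgroup.centralizer (Subgroup.closure (T k) : Set G),
      Set.infinite_coe_iff.mp hninf, h2.mono ?_, ?_⟩
    · intro x hx
      rw [SetLike.mem_coe, Subgroup.mem_centralizer_iff]
      apply mem_centralizer_closure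
      rintro t ⟨i, hi, rfl⟩
      exact hx i hi
    · intro u hu v hv
      exact Subgroup.mem_centralizer_iff.mp hv u hu
  have hall : ∀ K : Subgroup G, K ≤ Subgroup.closure (⋃ k, T k) → K.FG → Finite K := by
    rintro K hK ⟨F, rfl⟩
    have h2 : ∀ x ∈ Subgroup.closure (⋃ k, T k), ∃ k, x ∈ Subgroup.closure (T k) := by
      intro x hx
      induction hx using Subgroup.closure_induction with
      | mem x hx =>
        obtain ⟨k, hk⟩ := Set.mem_iUnion.mp hx
        exact ⟨k, Subgroup.subset_closure hk⟩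
      | one => exact ⟨0, Subgroup.one_mem _⟩
      | mul x y _ _ hx hy =>
        obtain ⟨i, hi⟩ := hx
        obtain ⟨j, hj⟩ := hy
        refine ⟨max i j, Subgroup.mul_mem _ ?_ ?_⟩
        · exact Subgroup.closure_mono (hTmono _ _ (le_max_left _ _)) hi
        · exact Subgroup.closure_mono (hTmono _ _ (le_max_right _ _)) hj
      | inv x _ hx =>
        obtain ⟨i, hi⟩ := hx
        exact ⟨i, Subgroup.inv_mem _ hi⟩
    have h3 : ∃ k, ∀ x ∈ F, x ∈ Subgroup.closure (T k) := by
      have h4 : ∀ x ∈ F, ∃ k, x ∈ Subgroup.closure (T k) := fun x hx =>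
        h2 x (hK (Subgroup.subset_closure hx))
      choose! kx hkx using h4
      refine ⟨F.sup kx, fun x hx => ?_⟩
      exact Subgroup.closure_mono (hTmono _ _ (Finset.le_sup hx)) (hkx x hx)
    obtain ⟨k, hk⟩ := h3
    have h4 : Subgroup.closure (F : Set G) ≤ Subgroup.closure (T k) := by
      rw [Subgroup.closure_le]
      exact hk
    have := hfin k
    exact Finite.of_injective (Subgroup.inclusion h4) (Subgroup.inclusion_injective h4)
  have h2 := hL _ hall
  have h3 : Infinite (Subgroup.closure (⋃ k, T k)) := by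
    refine Infinite.of_injective (fun k : ℕ => (⟨b (e k), Subgroup.subset_closure
      (Set.mem_iUnion.mpr ⟨k + 1, k, Nat.lt_succ_self k, rfl⟩)⟩ : Subgroup.closure (⋃ k, T k))) ?_
    intro i j hij
    exact he.injective (hbinj (Subtype.mk_eq_mk.mp hij))
  exact not_finite (Subgroup.closure (⋃ k, T k))

/-- the proportion of the elements of `Ω` with `P` -/
noncomputable def prop {G : Type*} (Ω : Finset G) (P : G → Prop) : ℝ := by
  classical
  exact ((Ω.filter P).card : ℝ) / Ω.card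

theorem prop_eq {G : Type*} (Ω : Finset G) (P : G → Prop) [DecidablePred P] :
    prop Ω P = ((Ω.filter P).card : ℝ) / Ω.card := by
  unfold prop
  congr 2
  refine congrArg Finset.card ?_
  ext a
  simp only [Finset.mem_filter]

theorem prop_nonneg {G : Type*} (Ω : Finset G) (P : G → Prop) : 0 ≤ prop Ω P := by
  unfold prop
  positivity

theorem prop_le_one {G : Type*} (Ω : Finset G) (P : G → Prop) : prop Ω P ≤ 1 := by
  classical
  rw [prop_eq]
  apply div_le_one_of_le₀ _ (by positivity)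
  exact_mod_cast Finset.card_filter_le _ _

theorem prop_true {G : Type*} (Ω : Finset G) (h : Ω.Nonempty) (P : G → Prop) (hP : ∀ g, P g) :
    prop Ω P = 1 := by
  classical
  rw [prop_eq, Finset.filter_true_of_mem fun g _ => hP g]
  have : (Ω.card : ℝ) ≠ 0 := by exact_mod_cast h.card_pos.ne'
  exact div_self this

theorem prop_or {G : Type*} (Ω : Finset G) (P Q : G → Prop) (h : ∀ g, ¬ (P g ∧ Q g)) :
    prop Ω (fun g => P g ∨ Q g) = prop Ω P + prop Ω Q := by
  classical
  rw [prop_eq, prop_eq, prop_eq, ← add_div, Finset.filter_or, Finset.card_union_of_disjoint]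
  · push_cast
    rfl
  · rw [Finset.disjoint_left]
    intro g hg hg'
    exact h g ⟨(Finset.mem_filter.mp hg).2, (Finset.mem_filter.mp hg').2⟩

theorem prop_shift {G : Type*} [Group G] (Ω : Finset G) (h : G) (P : G → Prop) :
    prop Ω P ≤ prop Ω (fun g => P (h⁻¹ * g)) + prop Ω (fun g => h * g ∉ Ω) := by
  classical
  rw [prop_eq, prop_eq, prop_eq, ← add_div]
  apply div_le_div_of_nonneg_right _ (by positivity)
  have h1 : Ω.filter P ⊆ (Ω.filter fun g => P g ∧ h * g ∈ Ω) ∪ Ω.filter (fun g => h * g ∉ Ω) := by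
    intro g hg
    obtain ⟨hg1, hg2⟩ := Finset.mem_filter.mp hg
    by_cases hg3 : h * g ∈ Ω
    · exact Finset.mem_union_left _ (Finset.mem_filter.mpr ⟨hg1, hg2, hg3⟩)
    · exact Finset.mem_union_right _ (Finset.mem_filter.mpr ⟨hg1, hg3⟩)
  have h2 : (Ω.filter fun g => P g ∧ h * g ∈ Ω).card ≤ (Ω.filter fun g => P (h⁻¹ * g)).card := by
    apply Finset.card_le_card_of_injOn (fun g => h * g)
    · intro g hg
      obtain ⟨_, hg2, hg3⟩ := Finset.mem_filter.mp hg
      refine Finset.mem_coe.mpr (Finset.mem_filter.mpr ⟨hg3, ?_⟩)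
      rw [inv_mul_cancel_left]
      exact hg2
    · intro a _ b _ hab
      exact mul_left_cancel hab
  have h3 := (Finset.card_le_card h1).trans (Finset.card_union_le _ _)
  exact_mod_cast h3.trans (Nat.add_le_add_right h2 _)

theorem densityN {G' G : Type*} [Group G'] [Group G] (hCI : ¬ Pool.Agent.H50.CIG.CI G)
    (hL : NLF G) (hcl : ∀ x : G, x ≠ 1 → {y : G | ∃ g : G, y = g * x * g⁻¹}.Infinite)
    (π : G' →* G) (hπ : Function.Surjective π) (Ω : ℕ → Finset G') (hΩ : ∀ n, (Ω n).Nonempty)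
    (hF : ∀ h : G', Tendsto (fun n => prop (Ω n) (fun g => h * g ∉ Ω n)) atTop (𝓝 0))
    (a : G) (ha : a ≠ 1) (η : ℝ) (hη : 0 < η) :
    ∀ᶠ n in atTop, ∀ b : G, b ≠ 1 →
      prop (Ω n) (fun g => a * (π g * b * (π g)⁻¹) = (π g * b * (π g)⁻¹) * a) ≤ η := by
  classical
  by_contra hcon
  rw [not_eventually] at hcon
  -- an ultrafilter
  have hne : (atTop ⊓ 𝓟 {n : ℕ | ¬ ∀ b : G, b ≠ 1 →
      prop (Ω n) (fun g => a * (π g * b * (π g)⁻¹) = (π g * b * (π g)⁻¹) * a) ≤ η}).NeBot :=
    frequently_iff_neBot.mp hcon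
  let U : Ultrafilter ℕ := Ultrafilter.of (atTop ⊓ 𝓟 {n : ℕ | ¬ ∀ b : G, b ≠ 1 →
      prop (Ω n) (fun g => a * (π g * b * (π g)⁻¹) = (π g * b * (π g)⁻¹) * a) ≤ η})
  have hU : (U : Filter ℕ) ≤ atTop ⊓ 𝓟 {n : ℕ | ¬ ∀ b : G, b ≠ 1 →
      prop (Ω n) (fun g => a * (π g * b * (π g)⁻¹) = (π g * b * (π g)⁻¹) * a) ≤ η} :=
    Ultrafilter.of_le _
  have hU1 : (U : Filter ℕ) ≤ atTop := hU.trans inf_le_left
  have hU2 : ∀ᶠ n in (U : Filter ℕ), ¬ ∀ b : G, b ≠ 1 →
      prop (Ω n) (fun g => a * (π g * b * (π g)⁻¹) = (π g * b * (π g)⁻¹) * a) ≤ η :=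
    (hU.trans inf_le_right) (mem_principal_self _)
  have hb : ∀ n : ℕ, ∃ b : G, b ≠ 1 ∧ ((¬ ∀ b : G, b ≠ 1 →
      prop (Ω n) (fun g => a * (π g * b * (π g)⁻¹) = (π g * b * (π g)⁻¹) * a) ≤ η) →
      η < prop (Ω n) (fun g => a * (π g * b * (π g)⁻¹) = (π g * b * (π g)⁻¹) * a)) := by
    intro n
    by_cases h : ∀ b : G, b ≠ 1 →
      prop (Ω n) (fun g => a * (π g * b * (π g)⁻¹) = (π g * b * (π g)⁻¹) * a) ≤ η
    · exact ⟨a, ha, fun h' => absurd h h'⟩
    · push Not at h
      obtain ⟨b, hb1, hb2⟩ := h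
      exact ⟨b, hb1, fun _ => hb2⟩
  choose b hb1 hb2 using hb
  -- the limits
  let x : Set G → ℕ → ℝ := fun A n => prop (Ω n) (fun g => π g * b n * (π g)⁻¹ ∈ A)
  have hlim : ∀ A : Set G, ∃ y : ℝ, Tendsto (x A) U (𝓝 y) := by
    intro A
    have h1 : ((U.map (x A) : Ultrafilter ℝ) : Filter ℝ) ≤ 𝓟 (Set.Icc 0 1) := by
      rw [Ultrafilter.coe_map, le_principal_iff, mem_map]
      filter_upwards with n
      exact ⟨prop_nonneg _ _, prop_le_one _ _⟩
    obtain ⟨y, -, hy⟩ := isCompact_Icc.ultrafilter_le_nhds (U.map (x A)) h1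
    exact ⟨y, hy⟩
  choose m hm using hlim
  let μ : FAP G :=
    { m := m
      nonneg := fun A => ge_of_tendsto' (hm A) fun n => prop_nonneg _ _
      univ := by
        apply tendsto_nhds_unique (hm Set.univ)
        apply tendsto_const_nhds.congr
        intro n
        exact (prop_true (Ω n) (hΩ n) _ fun g => Set.mem_univ _).symm
      add := by
        intro A B hAB
        apply tendsto_nhds_unique (hm (A ∪ B))
        refine ((hm A).add (hm B)).congr fun n => ?_
        exact (prop_or (Ω n) _ _ fun g hg => Set.disjoint_left.mp hAB hg.1 hg.2).symm }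
  have hμ : ∀ A, Tendsto (x A) U (𝓝 (μ.m A)) := hm
  have hle : ∀ (h : G') (A : Set G), μ.m A ≤ μ.m {y | (π h)⁻¹ * y * π h ∈ A} := by
    intro h A
    have h1 : Tendsto (fun n => x {y | (π h)⁻¹ * y * π h ∈ A} n +
        prop (Ω n) (fun g => h * g ∉ Ω n)) U (𝓝 (μ.m {y | (π h)⁻¹ * y * π h ∈ A} + 0)) :=
      (hμ _).add ((hF h).mono_left hU1)
    rw [add_zero] at h1
    apply le_of_tendsto_of_tendsto' (hμ A) h1
    intro n
    have h2 := prop_shift (Ω n) h (fun g => π g * b n * (π g)⁻¹ ∈ A)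
    have h3 : (fun g => π (h⁻¹ * g) * b n * (π (h⁻¹ * g))⁻¹ ∈ A) =
        fun g => π g * b n * (π g)⁻¹ ∈ {y | (π h)⁻¹ * y * π h ∈ A} := by
      funext g
      have h4 : π (h⁻¹ * g) * b n * (π (h⁻¹ * g))⁻¹ = (π h)⁻¹ * (π g * b n * (π g)⁻¹) * π h := by
        rw [map_mul, map_inv]
        group
      rw [h4]
      rfl
    rw [h3] at h2
    exact h2
  have hconj : ∀ (g : G) (A : Set G), μ.m {x | g⁻¹ * x * g ∈ A} = μ.m A := by
    intro g A
    obtain ⟨h, rfl⟩ := hπ g
    apply le_antisymm _ (hle h A)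
    have h1 := hle h⁻¹ {x | (π h)⁻¹ * x * π h ∈ A}
    have h2 : {y | (π h⁻¹)⁻¹ * y * π h⁻¹ ∈ {x | (π h)⁻¹ * x * π h ∈ A}} = A := by
      ext y
      show (π h)⁻¹ * ((π h⁻¹)⁻¹ * y * π h⁻¹) * π h ∈ A ↔ y ∈ A
      have h3 : (π h)⁻¹ * ((π h⁻¹)⁻¹ * y * π h⁻¹) * π h = y := by
        rw [map_inv]
        group
      rw [h3]
    rw [h2] at h1
    exact h1
  have hone : μ.m {1} = 0 := by
    apply tendsto_nhds_unique (hμ {1})
    apply tendsto_const_nhds.congr
    intro n
    show 0 = prop (Ω n) (fun g => π g * b n * (π g)⁻¹ ∈ ({1} : Set G))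
    rw [prop_eq, Finset.filter_false_of_mem, Finset.card_empty]
    · simp
    · intro g _ hg
      have hg' : π g * b n * (π g)⁻¹ = 1 := hg
      apply hb1 n
      rw [mul_inv_eq_one] at hg'
      exact mul_left_cancel (hg'.trans (mul_one _).symm)
  have hnull := centralizer_null hCI hL hcl μ hone hconj a ha
  have hη2 : η ≤ μ.m {y | a * y = y * a} := by
    apply ge_of_tendsto (hμ _)
    filter_upwards [hU2] with n hn
    exact (hb2 n hn).le
  rw [hnull] at hη2
  linarith

end Pool.Agent.H22.CIG
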