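import Pool.Agent.Helper22_CIG.Density
import Pool.Agent.Helper67_CIP.Small

/-!
The density theorem modulo the FC-centre: in a group with a Foelner sequence, without two infinite
commuting subgroups and without infinite locally finite subgroups, for `a` outside the FC-centre
the proportion of the `g` for which the commutator of `g⁻¹ a g` and `b` lies in the FC-centre tends
to zero, uniformly in `b` outside the FC-centre.
-/

namespace Pool.Agent.H22.CIG

open Filter Topology Pool.Agent.H50.CIG Pool.Agent.H67.CIP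

variable {G : Type*} [Group G]

theorem nlf_of (h : ∀ L : Subgroup G, LocFin L → (L : Set G).Finite) : NLF G := by
  intro H hH
  apply h H
  intro s hs
  have h1 : Subgroup.closure (s : Set G) ≤ H := by
    rw [Subgroup.closure_le]
    intro x hx
    exact hs x (Finset.mem_coe.mp hx)
  exact hH _ h1 ⟨s, rfl⟩

theorem mk_preimage_finite (N : Subgroup G) [N.Normal] (hN : (N : Set G).Finite)
    (S : Set (G ⧸ N)) (hS : S.Finite) : (QuotientGroup.mk' N ⁻¹' S).Finite := by
  apply hS.preimage'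
  intro q _
  obtain ⟨g, rfl⟩ := QuotientGroup.mk'_surjective N q
  apply (hN.image fun x => g * x).subset
  intro x hx
  have h1 : QuotientGroup.mk' N x = QuotientGroup.mk' N g := hx
  refine ⟨g⁻¹ * x, ?_, by simp⟩
  exact QuotientGroup.eq.mp h1.symm

theorem nlf_quot (N : Subgroup G) [N.Normal] (hN : (N : Set G).Finite) (hL : NLF G) :
    NLF (G ⧸ N) := by
  intro H' hH'
  have h1 : Finite (H'.comap (QuotientGroup.mk' N)) := by
    apply hL
    intro K hK hKfg
    have h2 : K.map (QuotientGroup.mk' N) ≤ H' := by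
      rw [Subgroup.map_le_iff_le_comap]
      exact hK
    have hfg : (K.map (QuotientGroup.mk' N)).FG := by
      classical
      obtain ⟨F, hF⟩ := hKfg
      refine ⟨F.image (QuotientGroup.mk' N), ?_⟩
      rw [← hF, MonoidHom.map_closure, Finset.coe_image]
    have h3 := hH' _ h2 hfg
    have h4 := mk_preimage_finite N hN (K.map (QuotientGroup.mk' N) : Set (G ⧸ N)) h3
    refine h4.subset ?_
    intro x hx
    exact Subgroup.mem_map_of_mem _ hx
  have h2 : (H'.comap (QuotientGroup.mk' N)).map (QuotientGroup.mk' N) = H' :=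
    Subgroup.map_comap_eq_self_of_surjective (QuotientGroup.mk'_surjective N) H'
  have h3 : ((H'.comap (QuotientGroup.mk' N) : Subgroup G) : Set G).Finite := h1
  have h4 := h3.image (QuotientGroup.mk' N)
  rw [← Subgroup.coe_map, h2] at h4
  exact h4

theorem not_ci_quot (N : Subgroup G) [N.Normal] (hN : (N : Set G).Finite) (hL : NLF G)
    (hCI : ¬ CI G) : ¬ CI (G ⧸ N) := by
  classical
  rintro ⟨A', B', hA', hB', hc⟩
  have hinf : ∀ C' : Subgroup (G ⧸ N), (C' : Set (G ⧸ N)).Infinite →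
      ((C'.comap (QuotientGroup.mk' N) : Subgroup G) : Set G).Infinite := by
    intro C' hC' hfin
    apply hC'
    have h2 : (C'.comap (QuotientGroup.mk' N)).map (QuotientGroup.mk' N) = C' :=
      Subgroup.map_comap_eq_self_of_surjective (QuotientGroup.mk'_surjective N) C'
    have h4 := hfin.image (QuotientGroup.mk' N)
    rw [← Subgroup.coe_map, h2] at h4
    exact h4
  have hA := hinf A' hA'
  have hB := hinf B' hB'
  have h1 : ∃ K : Subgroup G, K ≤ B'.comap (QuotientGroup.mk' N) ∧ K.FG ∧ ¬ Finite K := by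
    by_contra hcon
    push Not at hcon
    have h2 := hL (B'.comap (QuotientGroup.mk' N)) fun K hK hfg => by
      by_contra hK'
      exact hK' (hcon K hK hfg)
    exact hB h2
  obtain ⟨K, hKB, ⟨F, rfl⟩, hKinf⟩ := h1
  have hcm : ∀ a ∈ A'.comap (QuotientGroup.mk' N), ∀ b ∈ F, a * b * a⁻¹ * b⁻¹ ∈ N := by
    intro a ha b hb
    have h3 : QuotientGroup.mk' N b ∈ B' := hKB (Subgroup.subset_closure hb)
    have h4 : QuotientGroup.mk' N a ∈ A' := ha
    have h5 := hc _ h4 _ h3
    rw [← QuotientGroup.eq_one_iff]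
    show QuotientGroup.mk' N (a * b * a⁻¹ * b⁻¹) = 1
    rw [map_mul, map_mul, map_mul, map_inv, map_inv, h5]
    group
  have : Finite N := hN
  have : Infinite (A'.comap (QuotientGroup.mk' N)) := hA.to_subtype
  obtain ⟨y, hy⟩ := Finite.exists_infinite_fiber
    (fun a : A'.comap (QuotientGroup.mk' N) => fun b : F =>
      (⟨(a : G) * (b : G) * (a : G)⁻¹ * (b : G)⁻¹, hcm a a.2 b b.2⟩ : N))
  obtain ⟨a0, ha0⟩ := (Set.infinite_coe_iff.mp hy).nonempty
  apply hCI
  refine ⟨Subgroup.closure (F : Set G),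
    Subgroup.centralizer (Subgroup.closure (F : Set G) : Set G), ?_, ?_, ?_⟩
  · exact Set.infinite_coe_iff.mp (not_finite_iff_infinite.mp hKinf)
  · refine ((Set.infinite_coe_iff.mp hy).image (f := fun a : A'.comap (QuotientGroup.mk' N) =>
      (a0 : G)⁻¹ * (a : G)) ?_).mono ?_
    · intro a _ b _ hab
      exact Subtype.ext (mul_left_cancel hab)
    · rintro _ ⟨a, ha, rfl⟩
      rw [SetLike.mem_coe, Subgroup.mem_centralizer_iff]
      apply mem_centralizer_closure
      intro b hb
      have h3 := congrArg Subtype.val (congrFun (ha.trans ha0.symm) ⟨b, hb⟩)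
      have h4 : (a : G) * b * (a : G)⁻¹ * b⁻¹ = (a0 : G) * b * (a0 : G)⁻¹ * b⁻¹ := h3
      rw [mul_left_inj] at h4
      have h5 : b * (a0 : G)⁻¹ = (a0 : G)⁻¹ * ((a : G) * b * (a : G)⁻¹) := by
        rw [h4]
        group
      calc b * ((a0 : G)⁻¹ * (a : G)) = (b * (a0 : G)⁻¹) * (a : G) := by group
        _ = (a0 : G)⁻¹ * ((a : G) * b * (a : G)⁻¹) * (a : G) := by rw [h5]
        _ = (a0 : G)⁻¹ * (a : G) * b := by group
  · intro u hu v hv
    exact Subgroup.mem_centralizer_iff.mp hv u hu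

/-- the density theorem -/
theorem density (hCI : ¬ CI G) (hL : ∀ L : Subgroup G, LocFin L → (L : Set G).Finite)
    (Ω : ℕ → Finset G) (hΩ : ∀ n, (Ω n).Nonempty)
    (hF : ∀ h : G, Tendsto (fun n => prop (Ω n) (fun g => h * g ∉ Ω n)) atTop (𝓝 0))
    (a : G) (ha : a ∉ fc G) (η : ℝ) (hη : 0 < η) :
    ∀ᶠ n in atTop, ∀ b : G, b ∉ fc G →
      prop (Ω n) (fun g => cm (g⁻¹ * a * g) b ∈ fc G) ≤ η := by
  have hN := fc_finite hCI
  have hnorm : (fc G).Normal := ⟨fun n hn g => fc_conj' hn g⟩
  have hne : ∀ x : G, x ∉ fc G → QuotientGroup.mk' (fc G) x ≠ 1 := by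
    intro x hx h
    exact hx ((QuotientGroup.eq_one_iff x).mp h)
  have h1 := densityN (G' := G) (not_ci_quot (fc G) hN (nlf_of hL) hCI)
    (nlf_quot (fc G) hN (nlf_of hL)) (by
      intro q hq hfin
      obtain ⟨x, rfl⟩ := QuotientGroup.mk'_surjective (fc G) q
      apply hq
      show QuotientGroup.mk' (fc G) x = 1
      refine (QuotientGroup.eq_one_iff x).mpr ?_
      by_contra hx
      apply conj_infinite hx
      refine (mk_preimage_finite (fc G) hN _ hfin).subset ?_
      rintro _ ⟨g, rfl⟩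
      refine ⟨QuotientGroup.mk' (fc G) g⁻¹, ?_⟩
      show QuotientGroup.mk' (fc G) (g⁻¹ * x * g) = _
      rw [map_mul, map_mul, map_inv, inv_inv]) (QuotientGroup.mk' (fc G))
    (QuotientGroup.mk'_surjective (fc G)) Ω hΩ hF (QuotientGroup.mk' (fc G) a) (hne a ha) η hη
  filter_upwards [h1] with n hn
  intro b hb
  have h2 := hn _ (hne b hb)
  refine le_trans (le_of_eq ?_) h2
  congr 1
  funext g
  apply propext
  have h3 : cm (g⁻¹ * a * g) b ∈ fc G ↔ g * cm (g⁻¹ * a * g) b * g⁻¹ ∈ fc G := by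
    constructor
    · intro h
      exact fc_conj' h g
    · intro h
      have h4 := fc_conj h g
      have h5 : g⁻¹ * (g * cm (g⁻¹ * a * g) b * g⁻¹) * g = cm (g⁻¹ * a * g) b := by group
      rwa [h5] at h4
  have h4 : g * cm (g⁻¹ * a * g) b * g⁻¹ = a * (g * b * g⁻¹) * a⁻¹ * (g * b * g⁻¹)⁻¹ := by
    unfold cm
    group
  rw [h3, h4, ← QuotientGroup.eq_one_iff]
  show QuotientGroup.mk' (fc G) (a * (g * b * g⁻¹) * a⁻¹ * (g * b * g⁻¹)⁻¹) = 1 ↔ _
  rw [map_mul, map_mul, map_mul, map_inv, map_inv, map_mul, map_mul, map_inv, mul_inv_eq_one,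
    mul_inv_eq_iff_eq_mul]

end Pool.Agent.H22.CIG
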