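import Pool.Agent.Helper22_CIG.Alternative

/-!
Groups with Foelner sequences acting on probability spaces with polynomial lower bounds for the
measures of the supports.
-/

namespace Pool.Agent.H22.CIG

open Filter Topology MeasureTheory Pool.Agent.H50.CIG Pool.Agent.H67.CIP

/-- a probability measure extends to a finitely additive probability on all subsets -/
theorem exists_extend {X : Type*} [MeasurableSpace X] (μ : Measure X) [IsProbabilityMeasure μ] :
    ∃ ν : FAP X, ∀ S : Set X, MeasurableSet S → ν.m S = μ.real S := by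
  classical
  have hX : Nonempty X := by
    by_contra hemp
    rw [not_nonempty_iff] at hemp
    have h1 : μ Set.univ = 1 := measure_univ
    rw [Set.univ_eq_empty_iff.mpr hemp, measure_empty] at h1
    exact zero_ne_one h1
  obtain ⟨x₀⟩ := hX
  let σ : (F : Finset (Set X)) → X → (F → Bool) := fun F x S =>
    decide (MeasurableSet (S : Set X) ∧ x ∈ (S : Set X))
  have hσ : ∀ F, Measurable (σ F) := by
    intro F
    refine measurable_pi_lambda _ fun S => ?_
    by_cases hS : MeasurableSet (S : Set X)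
    · have h1 : (fun x => σ F x S) = fun x => decide (x ∈ (S : Set X)) := by
        funext x
        show decide (MeasurableSet (S : Set X) ∧ x ∈ (S : Set X)) = decide (x ∈ (S : Set X))
        simp [hS]
      rw [h1]
      apply measurable_to_bool
      have h2 : (fun x => decide (x ∈ (S : Set X))) ⁻¹' {true} = (S : Set X) := by
        ext x
        simp
      rw [h2]
      exact hS
    · have h1 : (fun x => σ F x S) = fun _ => false := by
        funext x
        show decide (MeasurableSet (S : Set X) ∧ x ∈ (S : Set X)) = false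
        simp [hS]
      rw [h1]
      exact measurable_const
  let r : (F : Finset (Set X)) → (F → Bool) → X := fun F τ =>
    if h : ∃ x, σ F x = τ then h.choose else x₀
  have hr : ∀ F x, σ F (r F (σ F x)) = σ F x := by
    intro F x
    have h : ∃ y, σ F y = σ F x := ⟨x, rfl⟩
    show σ F (if h : ∃ y, σ F y = σ F x then h.choose else x₀) = σ F x
    rw [dif_pos h]
    exact h.choose_spec
  have hmeas : ∀ (F : Finset (Set X)) (A : Set X), MeasurableSet {x | r F (σ F x) ∈ A} := by
    intro F A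
    exact hσ F (Set.toFinite {τ | r F τ ∈ A}).measurableSet
  let mm : Finset (Set X) → Set X → ℝ := fun F A => μ.real {x | r F (σ F x) ∈ A}
  have hlim : ∀ A : Set X, ∃ y : ℝ, Tendsto (fun F => mm F A)
      (Ultrafilter.of (atTop : Filter (Finset (Set X)))) (𝓝 y) := by
    intro A
    have h1 : (((Ultrafilter.of (atTop : Filter (Finset (Set X)))).map
        (fun F => mm F A) : Ultrafilter ℝ) : Filter ℝ) ≤ 𝓟 (Set.Icc 0 1) := by
      rw [Ultrafilter.coe_map, le_principal_iff, mem_map]
      filter_upwards with F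
      exact ⟨measureReal_nonneg, measureReal_le_one⟩
    obtain ⟨y, -, hy⟩ := isCompact_Icc.ultrafilter_le_nhds _ h1
    exact ⟨y, hy⟩
  choose m hm using hlim
  refine ⟨{ m := m, nonneg := ?_, univ := ?_, add := ?_ }, ?_⟩
  · intro A
    exact ge_of_tendsto' (hm A) fun F => measureReal_nonneg
  · apply tendsto_nhds_unique (hm Set.univ)
    apply tendsto_const_nhds.congr
    intro F
    show 1 = μ.real {x | r F (σ F x) ∈ Set.univ}
    simp
  · intro A B hAB
    apply tendsto_nhds_unique (hm (A ∪ B))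
    refine ((hm A).add (hm B)).congr fun F => ?_
    show μ.real {x | r F (σ F x) ∈ A} + μ.real {x | r F (σ F x) ∈ B} =
      μ.real {x | r F (σ F x) ∈ A ∪ B}
    rw [← measureReal_union _ (hmeas F B)]
    · rfl
    · rw [Set.disjoint_left]
      intro x hx hx'
      exact Set.disjoint_left.mp hAB hx hx'
  · intro S hS
    show m S = μ.real S
    apply tendsto_nhds_unique (hm S)
    apply tendsto_const_nhds.congr'
    have h1 : ∀ᶠ F : Finset (Set X) in atTop, S ∈ F := by
      rw [eventually_atTop]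
      exact ⟨{S}, fun F hF => hF (Finset.mem_singleton_self S)⟩
    filter_upwards [Ultrafilter.of_le _ h1] with F hF
    show μ.real S = μ.real {x | r F (σ F x) ∈ S}
    congr 1
    ext x
    have h2 := congrFun (hr F x) ⟨S, hF⟩
    have h3 : decide (MeasurableSet S ∧ r F (σ F x) ∈ S) = decide (MeasurableSet S ∧ x ∈ S) := h2
    have h4 := decide_eq_decide.mp h3
    show x ∈ S ↔ r F (σ F x) ∈ S
    constructor
    · intro hx
      exact (h4.mpr ⟨hS, hx⟩).2
    · intro hx
      exact (h4.mp ⟨hS, hx⟩).2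

variable {G : Type*} [Group G] {X : Type*} [MeasurableSpace X] [MulAction G X]

theorem frequencies (μ : Measure X) [IsProbabilityMeasure μ]
    (hμ : ∀ g : G, MeasurePreserving (fun x : X => g • x) μ μ)
    (hm : ∀ g : G, MeasurableSet (supp g : Set X))
    (Ω : ℕ → Finset G) (hΩ : ∀ n, (Ω n).Nonempty)
    (hF : ∀ h : G, Tendsto (fun n => prop (Ω n) (fun g => h * g ∉ Ω n)) atTop (𝓝 0))
    (len : G → ℕ) (hmul : ∀ a b, len (a * b) ≤ len a + len b) (hleninv : ∀ a, len a⁻¹ = len a)
    (c : ℝ) (hc : 0 < c) (D : ℕ)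
    (hlow : ∀ b : G, b ∉ fc G → c ≤ μ.real (supp b : Set X) * ((len b : ℝ) + 1) ^ D)
    (hinv : ∀ m : FAP X, (∀ (g : G) (S : Set X), m.m {x | g • x ∈ S} = m.m S) →
      ∃ a : G, a ∉ fc G ∧ m.m (supp a) < 1 / (3 * 2 ^ D)) :
    CI G ∨ ∃ L : Subgroup G, LocFin L ∧ (L : Set G).Infinite := by
  classical
  by_contra hcon
  push Not at hcon
  obtain ⟨hCI, hL⟩ := hcon
  have hδ : (0 : ℝ) < 1 / (3 * 2 ^ D) := by positivity
  obtain ⟨a₀, ha₀⟩ : ∃ a : G, a ∉ fc G := by
    obtain ⟨A, hA, δ₀, -, hev⟩ := alternative Ω hΩ hF {a | a ∉ fc G} (fun a => (supp a : Set X))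
      (1 / (3 * 2 ^ D)) (by
        intro m hm
        obtain ⟨a, ha, ha'⟩ := hinv m hm
        exact ⟨a, ha, ha'⟩)
    obtain ⟨n, hn⟩ := hev.exists
    obtain ⟨ν, -⟩ := exists_extend μ
    obtain ⟨a, ha, -⟩ := hn ν
    exact ⟨a, hA a ha⟩
  obtain ⟨C, δ, hδ0, hδ1, hC⟩ := choose_conj hCI hL Ω hΩ hF _ hδ hinv
  have hstep : ∀ b, b ∉ fc G → ∃ b', b' ∉ fc G ∧
      μ.real (supp b' : Set X) ≤ 3 * δ * μ.real (supp b : Set X) ∧
      len b' ≤ 2 * len b + 2 * C.sup len := by
    intro b hb
    have hpos : 0 < μ.real (supp b : Set X) := by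
      by_contra hno
      push Not at hno
      have h1 := hlow b hb
      have h2 : μ.real (supp b : Set X) * ((len b : ℝ) + 1) ^ D ≤ 0 :=
        mul_nonpos_of_nonpos_of_nonneg hno (by positivity)
      linarith
    have hne : μ (supp b : Set X) ≠ 0 := by
      intro h
      rw [measureReal_def, h] at hpos
      simp at hpos
    have hprob : IsProbabilityMeasure (ProbabilityTheory.cond μ (supp b : Set X)) :=
      ProbabilityTheory.cond_isProbabilityMeasure hne
    obtain ⟨ν, hν⟩ := exists_extend (ProbabilityTheory.cond μ (supp b : Set X))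
    obtain ⟨u, hu, hcm, hle⟩ := hC ν b hb
    refine ⟨cm u b, hcm, ?_, ?_⟩
    · refine (measure_supp_cm μ hμ hm u b).trans ?_
      rw [hν _ (hm u), measureReal_def, ProbabilityTheory.cond_apply (hm b), ENNReal.toReal_mul,
        ENNReal.toReal_inv, ← measureReal_def, ← measureReal_def, inv_mul_le_iff₀ hpos,
        Set.inter_comm] at hle
      linarith
    · have h1 : len u ≤ C.sup len := Finset.le_sup hu
      unfold cm
      have h2 := hmul (u * b * u⁻¹) b⁻¹
      have h3 := hmul (u * b) u⁻¹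
      have h4 := hmul u b
      rw [hleninv] at h2 h3
      omega
  set E : ℕ := 2 * C.sup len with hE
  have key : ∀ k : ℕ, ∃ b : G, b ∉ fc G ∧ μ.real (supp b : Set X) ≤ (3 * δ) ^ k ∧
      len b + E + 1 ≤ 2 ^ k * (len a₀ + E + 1) := by
    intro k
    induction k with
    | zero =>
      refine ⟨a₀, ha₀, ?_, by simp⟩
      rw [pow_zero]
      exact measureReal_le_one
    | succ k ih =>
      obtain ⟨b, hb, h1, h2⟩ := ih
      obtain ⟨b', hb', h3, h4⟩ := hstep b hb
      refine ⟨b', hb', ?_, ?_⟩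
      · refine h3.trans ?_
        rw [pow_succ, mul_comm ((3 * δ) ^ k)]
        exact mul_le_mul_of_nonneg_left h1 (by positivity)
      · rw [pow_succ]
        have h5 : len b' + E + 1 ≤ 2 * (len b + E + 1) := by omega
        calc len b' + E + 1 ≤ 2 * (len b + E + 1) := h5
          _ ≤ 2 * (2 ^ k * (len a₀ + E + 1)) := Nat.mul_le_mul_left 2 h2
          _ = 2 ^ k * 2 * (len a₀ + E + 1) := by ring
  let L : ℝ := (len a₀ + E + 1 : ℕ)
  have hLpos : 0 < L := by
    show (0 : ℝ) < ((len a₀ + E + 1 : ℕ) : ℝ)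
    positivity
  have hq0 : 0 < 3 * δ * 2 ^ D := by positivity
  have hq1 : 3 * δ * 2 ^ D < 1 := by
    rw [lt_div_iff₀ (by positivity)] at hδ1
    linarith
  obtain ⟨k, hk⟩ := exists_pow_lt_of_lt_one (show 0 < c / L ^ D by positivity) hq1
  obtain ⟨b, hb, h1, h2⟩ := key k
  have h3 := hlow b hb
  have h4 : (len b : ℝ) + 1 ≤ 2 ^ k * L := by
    have h5 : ((len b + E + 1 : ℕ) : ℝ) ≤ ((2 ^ k * (len a₀ + E + 1) : ℕ) : ℝ) := by
      exact_mod_cast h2
    have h6 : ((len b + E + 1 : ℕ) : ℝ) = (len b : ℝ) + E + 1 := by push_cast; ring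
    have h7 : ((2 ^ k * (len a₀ + E + 1) : ℕ) : ℝ) = 2 ^ k * L := by
      show _ = 2 ^ k * ((len a₀ + E + 1 : ℕ) : ℝ)
      push_cast
      ring
    have h8 : (0 : ℝ) ≤ E := Nat.cast_nonneg _
    rw [h6, h7] at h5
    linarith
  have h5 : c ≤ (3 * δ) ^ k * (2 ^ k * L) ^ D := by
    refine h3.trans ?_
    apply mul_le_mul h1 _ (by positivity) (by positivity)
    exact pow_le_pow_left₀ (by positivity) h4 D
  have h6 : (3 * δ) ^ k * (2 ^ k * L) ^ D = (3 * δ * 2 ^ D) ^ k * L ^ D := by
    rw [mul_pow (2 ^ k) L D, ← pow_mul, mul_comm k D, pow_mul, mul_pow (3 * δ) (2 ^ D) k]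
    ring
  rw [h6] at h5
  rw [lt_div_iff₀ (by positivity)] at hk
  linarith

end Pool.Agent.H22.CIG
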