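import Pool.Agent.Helper22_CIG.Mean

/-!
Groups acting by piecewise powers of a minimal homeomorphism (subgroups of the topological full
group): cocycle, L1 inequality for commutators, crossings of a cut, stabilizers of half orbits.
-/

namespace Pool.Agent.H22.CIG

set_option linter.unusedSectionVars false

open Filter Topology Pool.Agent.H50.CIG Pool.Agent.H67.CIP

variable {X : Type*} [TopologicalSpace X]

theorem zpow_add_apply (T : X ≃ₜ X) (i j : ℤ) (x : X) : (T ^ (i + j)) x = (T ^ i) ((T ^ j) x) := by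
  rw [zpow_add, Homeomorph.mul_apply]

theorem aperiodic [T2Space X] [Infinite X] (T : X ≃ₜ X)
    (hT : ∀ x : X, Dense (Set.range fun i : ℤ => (T ^ i) x)) (i : ℤ) (x : X)
    (h : (T ^ i) x = x) : i = 0 := by
  by_contra hi
  let H : Subgroup (X ≃ₜ X) :=
    { carrier := {S | S x = x}
      one_mem' := rfl
      mul_mem' := by
        intro a b ha hb
        have ha' : a x = x := ha
        have hb' : b x = x := hb
        show (a * b) x = x
        rw [Homeomorph.mul_apply, hb', ha']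
      inv_mem' := by
        intro a ha
        have ha' : a x = x := ha
        show a⁻¹ x = x
        rw [Homeomorph.inv_apply, Homeomorph.symm_apply_eq, ha'] }
  have hq : ∀ q : ℤ, (T ^ (|i| * q)) x = x := by
    intro q
    have h1 : T ^ i ∈ H := h
    have h2 : T ^ |i| ∈ H := by
      rcases abs_choice i with h3 | h3
      · rw [h3]
        exact h1
      · rw [h3, zpow_neg]
        exact H.inv_mem h1
    rw [zpow_mul]
    exact H.zpow_mem h2 q
  have hsub : (Set.range fun j : ℤ => (T ^ j) x) ⊆ (fun j : ℤ => (T ^ j) x) '' (Set.Ico 0 |i|) := by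
    rintro _ ⟨j, rfl⟩
    refine ⟨j % |i|, ⟨Int.emod_nonneg _ (abs_ne_zero.mpr hi),
      Int.emod_lt_of_pos _ (abs_pos.mpr hi)⟩, ?_⟩
    show (T ^ (j % |i|)) x = (T ^ j) x
    have h1 : j = j % |i| + |i| * (j / |i|) := (Int.emod_add_mul_ediv j |i|).symm
    calc (T ^ (j % |i|)) x = (T ^ (j % |i|)) ((T ^ (|i| * (j / |i|))) x) := by rw [hq]
      _ = (T ^ (j % |i| + |i| * (j / |i|))) x := (zpow_add_apply T _ _ x).symm
      _ = (T ^ j) x := by rw [← h1]
  have hfin : (Set.range fun j : ℤ => (T ^ j) x).Finite :=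
    ((Set.finite_Ico 0 |i|).image _).subset hsub
  have h1 : (Set.range fun j : ℤ => (T ^ j) x) = Set.univ := by
    rw [← hfin.isClosed.closure_eq]
    exact (hT x).closure_eq
  rw [h1] at hfin
  exact Set.infinite_univ hfin

theorem syndetic [CompactSpace X] (T : X ≃ₜ X)
    (hT : ∀ x : X, Dense (Set.range fun i : ℤ => (T ^ i) x)) (V : Set X) (hV : IsOpen V)
    (hne : V.Nonempty) : ∃ L : ℕ, ∀ z : X, ∃ i : ℤ, |i| ≤ L ∧ (T ^ i) z ∈ V := by
  obtain ⟨t, ht⟩ := isCompact_univ.elim_finite_subcover (fun i : ℤ => (T ^ i) ⁻¹' V)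
    (fun i => hV.preimage (T ^ i).continuous) (by
      intro z _
      obtain ⟨_, ⟨i, rfl⟩, hyV⟩ := (hT z).exists_mem_open hV hne
      exact Set.mem_iUnion.mpr ⟨i, hyV⟩)
  refine ⟨t.sup Int.natAbs, fun z => ?_⟩
  obtain ⟨i, hi, hz⟩ := Set.mem_iUnion₂.mp (ht (Set.mem_univ z))
  refine ⟨i, ?_, hz⟩
  rw [Int.abs_eq_natAbs]
  exact_mod_cast Finset.le_sup (f := Int.natAbs) hi

theorem cont_bound [CompactSpace X] (f : X → ℤ) (hf : Continuous f) :
    ∃ R : ℕ, ∀ x, |f x| ≤ (R : ℤ) := by
  have h1 : IsCompact (Set.range f) := isCompact_range hf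
  have h2 : (Set.range f).Finite := h1.finite_of_discrete
  refine ⟨h2.toFinset.sup Int.natAbs, fun x => ?_⟩
  rw [Int.abs_eq_natAbs]
  have h3 : f x ∈ h2.toFinset := by simp
  exact_mod_cast Finset.le_sup (f := Int.natAbs) h3

/-- `G` acts by piecewise powers of `T`, an aperiodic homeomorphism -/
structure Piece (T : X ≃ₜ X) (G : Type*) [Group G] [MulAction G X] where
  n : G → X → ℤ
  cont : ∀ g, Continuous (n g)
  eq : ∀ g x, g • x = (T ^ n g x) x
  ap : ∀ (i : ℤ) (x : X), (T ^ i) x = x → i = 0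

namespace Piece

variable {T : X ≃ₜ X} {G : Type*} [Group G] [MulAction G X] (p : Piece T G)

include p in
theorem inj {i j : ℤ} {x : X} (h : (T ^ i) x = (T ^ j) x) : i = j := by
  have h1 : (T ^ (i - j)) ((T ^ j) x) = (T ^ j) x := by
    rw [← zpow_add_apply, sub_add_cancel, h]
  have h2 := p.ap _ _ h1
  omega

theorem mul (g h : G) (x : X) : p.n (g * h) x = p.n g (h • x) + p.n h x := by
  apply p.inj (x := x)
  rw [zpow_add_apply, ← p.eq h x, ← p.eq g, ← p.eq, mul_smul]

theorem one (x : X) : p.n 1 x = 0 := by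
  apply p.inj (x := x)
  rw [← p.eq, one_smul, zpow_zero]
  rfl

theorem inv (g : G) (x : X) : p.n g⁻¹ (g • x) = - p.n g x := by
  have h1 := p.mul g⁻¹ g x
  rw [inv_mul_cancel, p.one] at h1
  omega

theorem eq_zero_iff (g : G) (x : X) : p.n g x = 0 ↔ g • x = x := by
  constructor
  · intro h
    rw [p.eq, h, zpow_zero]
    rfl
  · intro h
    apply p.inj (x := x)
    rw [← p.eq, h, zpow_zero]
    rfl

theorem bd [CompactSpace X] (g : G) : Bd (fun x => |(p.n g x : ℝ)|) := by
  obtain ⟨R, hR⟩ := cont_bound (p.n g) (p.cont g)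
  refine ⟨R, fun x => ?_⟩
  rw [abs_abs]
  exact_mod_cast hR x

/-- the mean displacement -/
noncomputable def N (μ : IMean (T : X → X)) (g : G) : ℝ := μ.I (fun x => |(p.n g x : ℝ)|)

include p in
theorem invariant [CompactSpace X] (μ : IMean (T : X → X)) (g : G) (f : X → ℝ) (hf : Bd f) :
    μ.I (fun x => f (g • x)) = μ.I f := by
  obtain ⟨R, hR⟩ := cont_bound (p.n g) (p.cont g)
  exact μ.piecewise (fun x => g • x) (MulAction.bijective g) (p.n g) R hR (p.eq g) f hf

/-- the indicator of the support -/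
noncomputable def s (X : Type*) {G : Type*} [Group G] [MulAction G X] (g : G) : X → ℝ :=
  (supp g : Set X).indicator (fun _ => (1 : ℝ))

theorem s_nonneg (g : G) (x : X) : 0 ≤ s X g x :=
  Set.indicator_nonneg (fun _ _ => zero_le_one) x

theorem s_le_one (g : G) (x : X) : s X g x ≤ 1 := by
  unfold s
  by_cases hx : x ∈ (supp g : Set X)
  · rw [Set.indicator_of_mem hx]
  · rw [Set.indicator_of_notMem hx]
    exact zero_le_one

theorem s_one {g : G} {x : X} (h : g • x ≠ x) : s X g x = 1 := by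
  unfold s
  rw [Set.indicator_of_mem]
  exact h

theorem s_zero {g : G} {x : X} (h : g • x = x) : s X g x = 0 := by
  unfold s
  rw [Set.indicator_of_notMem]
  intro h'
  exact h' h

theorem s_smul (g : G) (x : X) : s X g (g • x) = s X g x := by
  by_cases h : g • x = x
  · rw [h]
  · rw [s_one h, s_one]
    intro h'
    exact h (MulAction.injective g h')

theorem bd_s (g : G) : Bd (s X g) := Bd.ind _

/-- the L1 inequality for commutators -/
theorem commutator [CompactSpace X] (μ : IMean (T : X → X)) (u b : G) :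
    p.N μ (cm u b) ≤ 2 * μ.I (fun x => s X u x * |(p.n b x : ℝ)|) +
      2 * μ.I (fun x => s X b x * |(p.n u x : ℝ)|) := by
  have h1 : p.N μ (cm u b) = μ.I (fun x => |(p.n (cm u b) ((b * u) • x) : ℝ)|) :=
    (p.invariant μ (b * u) _ (p.bd (cm u b))).symm
  have h2 : ∀ x, (p.n (cm u b) ((b * u) • x)) =
      p.n b x + p.n u (b • x) - p.n u x - p.n b (u • x) := by
    intro x
    have e1 := p.mul (cm u b) (b * u) x
    have e2 : cm u b * (b * u) = u * b := by
      unfold cm
      group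
    rw [e2, p.mul u b, p.mul b u] at e1
    omega
  have h3 : ∀ x, |(p.n (cm u b) ((b * u) • x) : ℝ)| ≤
      (s X u x * |(p.n b x : ℝ)| + s X u (u • x) * |(p.n b (u • x) : ℝ)|) +
        (s X b x * |(p.n u x : ℝ)| + s X b (b • x) * |(p.n u (b • x) : ℝ)|) := by
    intro x
    rw [h2 x]
    push_cast
    rw [s_smul, s_smul]
    by_cases hu : u • x = x
    · have hu0 : p.n u x = 0 := (p.eq_zero_iff u x).mpr hu
      rw [s_zero hu, hu, hu0]
      by_cases hb : b • x = x
      · rw [hb, hu0]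
        simp
      · rw [s_one hb]
        simp only [Int.cast_zero, abs_zero]
        have e1 : (p.n b x : ℝ) + (p.n u (b • x) : ℝ) - 0 - (p.n b x : ℝ) = p.n u (b • x) := by ring
        rw [e1]
        linarith
    · rw [s_one hu]
      by_cases hb : b • x = x
      · have hb0 : p.n b x = 0 := (p.eq_zero_iff b x).mpr hb
        rw [s_zero hb, hb, hb0]
        have e1 : ((0 : ℤ) : ℝ) + (p.n u x : ℝ) - (p.n u x : ℝ) - (p.n b (u • x) : ℝ) =
            - (p.n b (u • x) : ℝ) := by
          push_cast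
          ring
        rw [e1, abs_neg]
        simp
      · rw [s_one hb]
        have e1 : |(p.n b x : ℝ) + (p.n u (b • x) : ℝ) - (p.n u x : ℝ) - (p.n b (u • x) : ℝ)| ≤
            |(p.n b x : ℝ)| + |(p.n u (b • x) : ℝ)| + |(p.n u x : ℝ)| + |(p.n b (u • x) : ℝ)| := by
          have f1 := abs_sub ((p.n b x : ℝ) + (p.n u (b • x) : ℝ) - (p.n u x : ℝ))
            (p.n b (u • x) : ℝ)
          have f2 := abs_sub ((p.n b x : ℝ) + (p.n u (b • x) : ℝ)) (p.n u x : ℝ)
          have f3 := abs_add_le (p.n b x : ℝ) (p.n u (b • x) : ℝ)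
          linarith
        linarith
  have b1 : Bd (fun x => s X u x * |(p.n b x : ℝ)|) := (bd_s u).mul (p.bd b)
  have b2 : Bd (fun x => s X b x * |(p.n u x : ℝ)|) := (bd_s b).mul (p.bd u)
  have b3 : Bd (fun x => s X u (u • x) * |(p.n b (u • x) : ℝ)|) := b1.comp (fun x => u • x)
  have b4 : Bd (fun x => s X b (b • x) * |(p.n u (b • x) : ℝ)|) := b2.comp (fun x => b • x)
  rw [h1]
  refine (μ.mono _ _ ((p.bd _).comp _) ((b1.add b3).add (b2.add b4)) h3).trans ?_
  rw [μ.add _ _ (b1.add b3) (b2.add b4), μ.add _ _ b1 b3, μ.add _ _ b2 b4]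
  have e1 := p.invariant μ u _ b1
  have e2 := p.invariant μ b _ b2
  rw [e1, e2]
  linarith

include p in
theorem support_cm [CompactSpace X] (μ : IMean (T : X → X)) (u b : G) :
    μ.I (s X (cm u b)) ≤ 3 * μ.I (fun x => s X u x * s X b x) := by
  have b1 : Bd (fun x => s X u x * s X b x) := (bd_s u).mul (bd_s b)
  have hmem : ∀ y : X, y ∈ (supp u ∩ supp b : Set X) → s X u y * s X b y = 1 := by
    rintro y ⟨h1, h2⟩
    rw [s_one h1, s_one h2, one_mul]
  have hnn : ∀ y : X, 0 ≤ s X u y * s X b y := fun y => mul_nonneg (s_nonneg _ _) (s_nonneg _ _)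
  have h3 : ∀ x, s X (cm u b) x ≤ s X u x * s X b x +
      (s X u (u⁻¹ • x) * s X b (u⁻¹ • x) + s X u (b⁻¹ • x) * s X b (b⁻¹ • x)) := by
    intro x
    by_cases h : cm u b • x = x
    · rw [s_zero h]
      exact add_nonneg (hnn _) (add_nonneg (hnn _) (hnn _))
    · rw [s_one h]
      have n1 := hnn x
      have n2 := hnn (u⁻¹ • x)
      have n3 := hnn (b⁻¹ • x)
      rcases supp_cm u b x h with h | h | h
      · have := hmem _ h
        linarith
      · have := hmem _ h
        linarith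
      · have := hmem _ h
        linarith
  have b2 : Bd (fun x => s X u (u⁻¹ • x) * s X b (u⁻¹ • x)) := b1.comp (fun x => u⁻¹ • x)
  have b3 : Bd (fun x => s X u (b⁻¹ • x) * s X b (b⁻¹ • x)) := b1.comp (fun x => b⁻¹ • x)
  refine (μ.mono _ _ (bd_s _) (b1.add (b2.add b3)) h3).trans ?_
  rw [μ.add _ _ b1 (b2.add b3), μ.add _ _ b2 b3]
  have e1 := p.invariant μ u⁻¹ _ b1
  have e2 := p.invariant μ b⁻¹ _ b1
  rw [e1, e2]
  linarith

end Piece

end Pool.Agent.H22.CIG
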