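import Mathlib

/-!
An infinite group all of whose finitely generated subgroups are finite and soluble contains an
infinite set of pairwise commuting elements (elementary case of the theorem of Hall, Kulatilaka
and Kargapolov).
-/

namespace Pool.Agent.H22.CIG

/-- identity of Frobenius: `V` a group normalised by `e`, acting on an abelian group -/
theorem frob {E K : Type*} [Group E] [CommGroup K] (φ : E →* MulAut K)
    (V : Subgroup E) [Finite V] (e : E) (p : ℕ) (hp : 0 < p) (hep : e ^ p = 1) (hn : ∀ v ∈ V, ∀ t : ℕ, e ^ t * v * (e ^ t)⁻¹ ∈ V)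
    (ha : ∀ t, 0 < t → t < p → ∀ v ∈ V, e ^ t * v = v * e ^ t → v = 1)
    (hb : ∀ w : K, (∀ v ∈ V, φ v w = w) → w = 1)
    (hc : ∀ w : K, φ e w = w → w = 1) (w : K) : w ^ Nat.card V = 1 := by
  classical
  have : Fintype V := Fintype.ofFinite V
  -- sums over the powers of `e`
  have hq : ∀ u : K, ∏ t ∈ Finset.range p, φ (e ^ t) u = 1 := by
    intro u
    apply hc
    have h1 : φ e (∏ t ∈ Finset.range p, φ (e ^ t) u) =
        ∏ t ∈ Finset.range p, φ (e ^ (t + 1)) u := by
      rw [map_prod]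
      refine Finset.prod_congr rfl fun t _ => ?_
      rw [pow_succ' e t, map_mul, MulAut.mul_apply]
    have h2 : (∏ t ∈ Finset.range p, φ (e ^ (t + 1)) u) * φ (e ^ 0) u =
        (∏ t ∈ Finset.range p, φ (e ^ t) u) * φ (e ^ p) u := by
      rw [← Finset.prod_range_succ' (fun t => φ (e ^ t) u), Finset.prod_range_succ]
    rw [hep, pow_zero] at h2
    rw [h1]
    exact mul_right_cancel h2
  -- sums over `V`
  have hQ : ∀ u : K, ∏ v : V, φ (v : E) u = 1 := by
    intro u
    apply hb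
    intro v' hv'
    rw [map_prod]
    refine Fintype.prod_equiv (Equiv.mulLeft (⟨v', hv'⟩ : V)) _ _ ?_
    intro v
    rw [← MulAut.mul_apply, ← map_mul]
    rfl
  have hrow : ∀ v : V, ∏ t ∈ Finset.range p, φ ((v : E)⁻¹ * e ^ t * v) w = 1 := by
    intro v
    have h1 : ∏ t ∈ Finset.range p, φ ((v : E)⁻¹ * e ^ t * v) w =
        φ (v : E)⁻¹ (∏ t ∈ Finset.range p, φ (e ^ t) (φ (v : E) w)) := by
      rw [map_prod]
      refine Finset.prod_congr rfl fun t _ => ?_
      rw [map_mul, map_mul, MulAut.mul_apply, MulAut.mul_apply]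
    rw [h1, hq, map_one]
  have hcol : ∀ t ∈ Finset.range p, t ≠ 0 → ∏ v : V, φ ((v : E)⁻¹ * e ^ t * v) w = 1 := by
    intro t ht ht0
    let σ : V → V := fun v => ⟨(v : E)⁻¹ * (e ^ t * v * (e ^ t)⁻¹),
      V.mul_mem (V.inv_mem v.2) (hn v v.2 t)⟩
    have hσ : Function.Injective σ := by
      intro u v huv
      have h1 : (u : E)⁻¹ * (e ^ t * u * (e ^ t)⁻¹) = (v : E)⁻¹ * (e ^ t * v * (e ^ t)⁻¹) :=
        congrArg Subtype.val huv
      have h2 : (v : E) * (u : E)⁻¹ ∈ V := V.mul_mem v.2 (V.inv_mem u.2)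
      have h3 : e ^ t * ((v : E) * (u : E)⁻¹) = ((v : E) * (u : E)⁻¹) * e ^ t := by
        have h4 : (v : E) * (u : E)⁻¹ * (e ^ t * u * (e ^ t)⁻¹) = e ^ t * v * (e ^ t)⁻¹ := by
          rw [mul_assoc, h1, mul_inv_cancel_left]
        have h5 : (v : E) * (u : E)⁻¹ = (e ^ t * v * (e ^ t)⁻¹) * (e ^ t * u * (e ^ t)⁻¹)⁻¹ := by
          rw [← h4, mul_inv_cancel_right]
        have h6 : (v : E) * (u : E)⁻¹ = e ^ t * ((v : E) * (u : E)⁻¹) * (e ^ t)⁻¹ :=
          h5.trans (by group)
        rw [eq_mul_inv_iff_mul_eq] at h6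
        exact h6.symm
      have h7 := ha t (Nat.pos_of_ne_zero ht0) (Finset.mem_range.mp ht) _ h2 h3
      exact Subtype.ext (mul_inv_eq_one.mp h7).symm
    have hσb : Function.Bijective σ := Finite.injective_iff_bijective.mp hσ
    have h1 : ∏ v : V, φ ((v : E)⁻¹ * e ^ t * v) w = ∏ v : V, φ ((σ v : V) : E) (φ (e ^ t) w) := by
      refine Finset.prod_congr rfl fun v _ => ?_
      rw [← MulAut.mul_apply, ← map_mul]
      congr 2
      show (v : E)⁻¹ * e ^ t * v = (v : E)⁻¹ * (e ^ t * v * (e ^ t)⁻¹) * e ^ t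
      group
    rw [h1, hσb.prod_comp (fun v : V => φ (v : E) (φ (e ^ t) w)), hQ]
  have h1 : ∏ v : V, ∏ t ∈ Finset.range p, φ ((v : E)⁻¹ * e ^ t * v) w = 1 :=
    Finset.prod_eq_one fun v _ => hrow v
  rw [Finset.prod_comm, Finset.prod_eq_single_of_mem 0 (Finset.mem_range.mpr hp) hcol] at h1
  have h2 : ∏ v : V, φ ((v : E)⁻¹ * e ^ 0 * v) w = w ^ Nat.card V := by
    rw [Nat.card_eq_fintype_card, ← Finset.card_univ, ← Finset.prod_const]
    refine Finset.prod_congr rfl fun v _ => ?_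
    rw [pow_zero, mul_one, inv_mul_cancel, map_one]
    rfl
  rw [← h2, h1]

/-- a Frobenius group `V e` acting without fixed points on an abelian normal subgroup `M` -/
theorem core {E : Type*} [Group E] [Finite E] (M V : Subgroup E) [M.Normal]
    (hMc : ∀ x ∈ M, ∀ y ∈ M, x * y = y * x) (hM : M ≠ ⊥) (hV : V ≠ ⊥) (e : E) (p : ℕ)
    (hp : p.Prime) (hep : e ^ p = 1) (hn : ∀ v ∈ V, e * v * e⁻¹ ∈ V)
    (ha : ∀ v ∈ V, e * v = v * e → v = 1)
    (hb : ∀ v ∈ V, v ≠ 1 → ∀ w ∈ M, v * w = w * v → w = 1)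
    (hc : ∀ w ∈ M, e * w = w * e → w = 1) : False := by
  classical
  let hK : CommGroup M := { (inferInstance : Group M) with
    mul_comm := fun x y => Subtype.ext (hMc x x.2 y y.2) }
  let φ : E →* MulAut M := MulAut.conjNormal
  have hφ : ∀ (x : E) (w : M), φ x w = w → x * w = w * x := by
    intro x w h
    have h1 : x * (w : E) * x⁻¹ = w := by
      have h2 := congrArg Subtype.val h
      rwa [MulAut.conjNormal_apply] at h2
    exact mul_inv_eq_iff_eq_mul.mp h1
  have hn' : ∀ v ∈ V, ∀ t : ℕ, e ^ t * v * (e ^ t)⁻¹ ∈ V := by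
    intro v hv t
    induction t with
    | zero => simpa using hv
    | succ t ih =>
      have h1 := hn _ ih
      have h2 : e ^ (t + 1) * v * (e ^ (t + 1))⁻¹ = e * (e ^ t * v * (e ^ t)⁻¹) * e⁻¹ := by
        rw [pow_succ' e t]
        group
      rw [h2]
      exact h1
  have ha' : ∀ t, 0 < t → t < p → ∀ v ∈ V, e ^ t * v = v * e ^ t → v = 1 := by
    intro t ht0 htp v hv hcomm
    have h1 : Nat.Coprime t p := (Nat.coprime_of_lt_prime ht0.ne' htp hp).symm
    obtain ⟨s, -, hs⟩ := Nat.exists_mul_mod_eq_one_of_coprime h1 hp.one_lt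
    have h2 : (e ^ t) ^ s = e := by
      rw [← pow_mul, ← Nat.div_add_mod (t * s) p, hs, pow_add, pow_mul, hep, one_pow, one_mul,
        pow_one]
    have h3 : Commute (e ^ t) v := hcomm
    have h4 := h3.pow_left s
    rw [h2] at h4
    exact ha v hv h4
  obtain ⟨⟨v0, hv0⟩, hv01⟩ := Subgroup.ne_bot_iff_exists_ne_one.mp hV
  have hv01' : v0 ≠ 1 := fun h => hv01 (Subtype.ext h)
  have key : ∀ w : M, w ^ Nat.card V = 1 := by
    apply frob φ V e p hp.pos hep hn' ha'
    · intro w hw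
      exact Subtype.ext (hb v0 hv0 hv01' w w.2 (hφ v0 w (hw v0 hv0)))
    · intro w hw
      exact Subtype.ext (hc w w.2 (hφ e w hw))
  have hcop : Nat.Coprime (Nat.card V) (Nat.card M) := by
    by_contra hne
    obtain ⟨r, hr, hrV, hrM⟩ := Nat.Prime.not_coprime_iff_dvd.mp hne
    have : Fact r.Prime := ⟨hr⟩
    obtain ⟨⟨v, hv⟩, hvr⟩ := exists_prime_orderOf_dvd_card' (G := V) r hrV
    rw [Subgroup.orderOf_mk] at hvr
    have hZ : IsPGroup r (Subgroup.zpowers v) := by
      apply IsPGroup.of_card (n := 1)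
      rw [Nat.card_zpowers, hvr, pow_one]
    let _ : MulAction (Subgroup.zpowers v) M :=
      MulAction.compHom M (φ.comp (Subgroup.zpowers v).subtype)
    have hsm : ∀ (z : Subgroup.zpowers v) (m : M), z • m = φ (z : E) m := fun _ _ => rfl
    have h1 : (1 : M) ∈ MulAction.fixedPoints (Subgroup.zpowers v) M := by
      intro z
      rw [hsm, map_one]
    obtain ⟨b, hb1, hb2⟩ := hZ.exists_fixed_point_of_prime_dvd_card_of_fixed_point M hrM h1
    have h2 := hb1 ⟨v, Subgroup.mem_zpowers v⟩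
    rw [hsm] at h2
    have h3 : v ≠ 1 := by
      rintro rfl
      rw [orderOf_one] at hvr
      exact hr.one_lt.ne hvr
    exact hb2 (Subtype.ext (hb v hv h3 b b.2 (hφ v b h2))).symm
  obtain ⟨w, hw⟩ := Subgroup.ne_bot_iff_exists_ne_one.mp hM
  apply hw
  rw [← orderOf_eq_one_iff]
  exact Nat.eq_one_of_dvd_coprimes hcop (orderOf_dvd_of_pow_eq_one (key w)) (orderOf_dvd_natCard w)

theorem card_le {G : Type*} [Group G] (P : Subgroup G) [Finite P] (x : G)
    (hcx : ((Subgroup.centralizer {x} : Subgroup G) : Set G).Finite)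
    (h : ∀ g ∈ P, (g * x * g⁻¹) * x = x * (g * x * g⁻¹)) :
    Nat.card P ≤ ((Subgroup.centralizer {x} : Subgroup G) : Set G).ncard ^ 2 := by
  classical
  let C : Finset G := hcx.toFinset
  have hPf : (P : Set G).Finite := Set.toFinite _
  have hC : ∀ y, y ∈ C ↔ x * y = y * x := by
    intro y
    rw [Set.Finite.mem_toFinset, SetLike.mem_coe, Subgroup.mem_centralizer_singleton_iff]
    exact eq_comm
  have h1 : Nat.card P = hPf.toFinset.card := by
    rw [← Set.ncard_eq_toFinset_card _ hPf]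
    rfl
  have h2 : ((Subgroup.centralizer {x} : Subgroup G) : Set G).ncard = C.card :=
    Set.ncard_eq_toFinset_card _ hcx
  rw [h1, h2, sq]
  apply Finset.card_le_mul_card_image_of_maps_to (f := fun g => g * x * g⁻¹) (t := C)
  · intro g hg
    rw [hC]
    exact (h g (hPf.mem_toFinset.mp hg)).symm
  · intro b _
    rcases Finset.eq_empty_or_nonempty (hPf.toFinset.filter fun g => g * x * g⁻¹ = b) with h3 | ⟨g0, hg0⟩
    · rw [h3]
      simp
    · apply Finset.card_le_card_of_injOn (fun g => g0⁻¹ * g)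
      · intro g hg
        have e1 : g * x * g⁻¹ = b := (Finset.mem_filter.mp hg).2
        have e2 : g0 * x * g0⁻¹ = b := (Finset.mem_filter.mp hg0).2
        rw [Finset.mem_coe, hC]
        have e3 : g * x * g⁻¹ = g0 * x * g0⁻¹ := e1.trans e2.symm
        have e4 : g * x = g0 * x * g0⁻¹ * g := by
          rw [← e3]
          group
        show x * (g0⁻¹ * g) = g0⁻¹ * g * x
        rw [mul_assoc g0⁻¹ g x, e4]
        group
      · intro a _ b _ hab
        exact mul_left_cancel hab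

theorem abn {G : Type*} [Group G] (P : Subgroup G) (hP : P ≠ ⊥) (hs : Group.IsSolvable P) :
    ∃ M : Subgroup G, M ≤ P ∧ M ≠ ⊥ ∧ (∀ x ∈ M, ∀ y ∈ M, x * y = y * x) ∧
      ∀ g ∈ P, ∀ x ∈ M, g * x * g⁻¹ ∈ M := by
  classical
  have hex := hs.solvable
  have hn := Nat.find_spec hex
  have hn0 : Nat.find hex ≠ 0 := by
    intro h0
    rw [h0, derivedSeries_zero] at hn
    apply hP
    rw [eq_bot_iff]
    intro x hx
    have h1 : (⟨x, hx⟩ : P) ∈ (⊤ : Subgroup P) := Subgroup.mem_top _
    rw [hn, Subgroup.mem_bot] at h1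
    exact congrArg Subtype.val h1
  obtain ⟨k, hk⟩ := Nat.exists_eq_succ_of_ne_zero hn0
  have hk1 : derivedSeries P k ≠ ⊥ := fun h => Nat.find_min hex (by omega) h
  rw [hk, derivedSeries_succ] at hn
  have hcomm := Subgroup.commutator_eq_bot_iff_le_centralizer.mp hn
  refine ⟨(derivedSeries P k).map P.subtype, Subgroup.map_subtype_le _, ?_, ?_, ?_⟩
  · rw [Ne, Subgroup.map_eq_bot_iff_of_injective _ (Subgroup.subtype_injective P)]
    exact hk1
  · rintro _ ⟨x, hx, rfl⟩ _ ⟨y, hy, rfl⟩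
    have h1 := Subgroup.mem_centralizer_iff.mp (hcomm hx) y hy
    rw [← map_mul, ← map_mul, h1]
  · rintro g hg _ ⟨x, hx, rfl⟩
    exact ⟨⟨g, hg⟩ * x * ⟨g, hg⟩⁻¹, (derivedSeries_normal P k).conj_mem x hx ⟨g, hg⟩, rfl⟩

theorem big {G : Type*} [Group G] [Infinite G]
    (hls : ∀ K : Subgroup G, K.FG → Finite K ∧ Group.IsSolvable K)
    (hcc : ∀ x : G, x ≠ 1 → ((Subgroup.centralizer {x} : Subgroup G) : Set G).Finite)
    (D T : Set G) (hD : D.Finite) (hT : T.Finite) (h1 : (1 : G) ∉ D) :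
    ∃ P M : Subgroup G, T ⊆ P ∧ Finite P ∧ M ≤ P ∧ M ≠ ⊥ ∧ (∀ x ∈ M, ∀ y ∈ M, x * y = y * x) ∧
      (∀ g ∈ P, ∀ x ∈ M, g * x * g⁻¹ ∈ M) ∧ ∀ x ∈ M, x ∉ D := by
  classical
  obtain ⟨N, hN⟩ : ∃ N, ∀ d ∈ D,
      ((Subgroup.centralizer {d} : Subgroup G) : Set G).ncard ≤ N := by
    obtain ⟨N, hN⟩ := (hD.image fun d =>
      ((Subgroup.centralizer {d} : Subgroup G) : Set G).ncard).bddAbove
    exact ⟨N, fun d hd => hN ⟨d, hd, rfl⟩⟩
  obtain ⟨s, hs⟩ := Infinite.exists_subset_card_eq G (N ^ 2 + 2)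
  have hfg : (Subgroup.closure (T ∪ (s : Set G))).FG :=
    ⟨hT.toFinset ∪ s, by rw [Finset.coe_union, Set.Finite.coe_toFinset]⟩
  obtain ⟨hPfin, hPs⟩ := hls _ hfg
  set P := Subgroup.closure (T ∪ (s : Set G)) with hP
  have hcard : N ^ 2 + 2 ≤ Nat.card P := by
    rw [← hs, ← Set.ncard_coe_finset s]
    exact Set.ncard_le_ncard (Set.subset_union_right.trans Subgroup.subset_closure)
      (Set.toFinite _)
  have hPbot : P ≠ ⊥ := by
    intro h
    rw [h, Subgroup.card_bot] at hcard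
    omega
  obtain ⟨M, hMP, hM1, hMc, hMn⟩ := abn P hPbot hPs
  refine ⟨P, M, Set.subset_union_left.trans Subgroup.subset_closure, hPfin, hMP, hM1, hMc, hMn, ?_⟩
  intro x hx hxD
  have hx1 : x ≠ 1 := fun h => h1 (h ▸ hxD)
  have h2 := card_le P x (hcc x hx1) fun g hg => hMc _ (hMn g hg x hx) x hx
  have h3 := Nat.pow_le_pow_left (hN x hxD) 2
  omega

theorem no_cc {G : Type*} [Group G] [Infinite G]
    (hls : ∀ K : Subgroup G, K.FG → Finite K ∧ Group.IsSolvable K)
    (hcc : ∀ x : G, x ≠ 1 → ((Subgroup.centralizer {x} : Subgroup G) : Set G).Finite) : False := by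
  classical
  obtain ⟨x, hx⟩ := exists_ne (1 : G)
  have hfin : Finite (Subgroup.zpowers x) := by
    apply (hls _ _).1
    rw [Subgroup.zpowers_eq_closure]
    exact ⟨{x}, by rw [Finset.coe_singleton]⟩
  have hord : orderOf x ≠ 0 := by
    rw [← Nat.card_zpowers]
    exact Nat.card_pos.ne'
  have hord1 : orderOf x ≠ 1 := fun h => hx (orderOf_eq_one_iff.mp h)
  set p := (orderOf x).minFac with hpdef
  have hp : p.Prime := Nat.minFac_prime hord1
  set e := x ^ (orderOf x / p) with hedef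
  have heo : orderOf e = p := orderOf_pow_orderOf_div hord (Nat.minFac_dvd _)
  have he1 : e ≠ 1 := by
    intro h
    rw [h, orderOf_one] at heo
    exact hp.one_lt.ne heo
  have hep : e ^ p = 1 := by
    rw [← heo]
    exact pow_orderOf_eq_one e
  obtain ⟨P0, V, hTP0, hP0, hVP0, hV1, hVc, hVn, hVD⟩ := big hls hcc
    (((Subgroup.centralizer {e} : Subgroup G) : Set G) \ {1}) {e} ((hcc e he1).subset
      Set.sdiff_subset) (Set.finite_singleton e) (fun h => h.2 rfl)
  have heP0 : e ∈ P0 := hTP0 rfl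
  obtain ⟨P1, M, hTP1, hP1, hMP1, hM1, hMc, hMn, hMD⟩ := big hls hcc
    (⋃ y ∈ ((P0 : Set G) \ {1}), (((Subgroup.centralizer {y} : Subgroup G) : Set G) \ {1}))
    (P0 : Set G) (by
      apply Set.Finite.biUnion ((Set.toFinite (P0 : Set G)).subset Set.sdiff_subset)
      intro y hy
      exact (hcc y hy.2).subset Set.sdiff_subset) (Set.toFinite _) (by
      intro h
      rw [Set.mem_iUnion₂] at h
      obtain ⟨y, _, hy⟩ := h
      exact hy.2 rfl)
  have hcM : ∀ y ∈ P0, y ≠ 1 → ∀ w ∈ M, y * w = w * y → w = 1 := by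
    intro y hy hy1 w hw hyw
    by_contra hw1
    apply hMD w hw
    rw [Set.mem_iUnion₂]
    refine ⟨y, ⟨hy, hy1⟩, ?_, hw1⟩
    rw [SetLike.mem_coe, Subgroup.mem_centralizer_singleton_iff]
    exact hyw.symm
  have heP1 : e ∈ P1 := hTP1 heP0
  have hVP1 : V ≤ P1 := hVP0.trans hTP1
  have : (M.subgroupOf P1).Normal := by
    constructor
    intro n hn g
    rw [Subgroup.mem_subgroupOf] at hn ⊢
    exact hMn g g.2 n hn
  refine core (M.subgroupOf P1) (V.subgroupOf P1) ?_ ?_ ?_ (⟨e, heP1⟩ : P1) p hp ?_ ?_ ?_ ?_ ?_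
  · intro a ha b hb
    exact Subtype.ext (hMc a ha b hb)
  · rw [Ne, Subgroup.subgroupOf_eq_bot]
    intro h
    exact hM1 (h.eq_bot_of_le hMP1)
  · rw [Ne, Subgroup.subgroupOf_eq_bot]
    intro h
    exact hV1 (h.eq_bot_of_le hVP1)
  · exact Subtype.ext hep
  · intro v hv
    exact hVn e heP0 v hv
  · intro v hv hev
    apply Subtype.ext
    by_contra hv1
    apply hVD v hv
    refine ⟨?_, hv1⟩
    rw [SetLike.mem_coe, Subgroup.mem_centralizer_singleton_iff]
    exact (congrArg Subtype.val hev).symm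
  · intro v hv hv1 w hw hvw
    exact Subtype.ext (hcM v (hVP0 hv) (fun h => hv1 (Subtype.ext h)) w hw
      (congrArg Subtype.val hvw))
  · intro w hw hew
    exact Subtype.ext (hcM e heP0 he1 w hw (congrArg Subtype.val hew))

/-- every finitely generated subgroup is finite and soluble -/
def LFS (G : Type*) [Group G] : Prop := ∀ K : Subgroup G, K.FG → Finite K ∧ Group.IsSolvable K

theorem LFS.sub {G : Type*} [Group G] (h : LFS G) (H : Subgroup G) : LFS H := by
  classical
  rintro K ⟨S, hS⟩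
  obtain ⟨h1, h2⟩ := h (K.map H.subtype) ⟨S.image H.subtype, by
    rw [Finset.coe_image, ← MonoidHom.map_closure, hS]⟩
  let e : K ≃* K.map H.subtype := K.equivMapOfInjective _ (Subgroup.subtype_injective H)
  exact ⟨Finite.of_equiv _ e.symm.toEquiv,
    Group.isSolvable_of_isSolvable_injective (f := e.toMonoidHom) e.injective⟩

theorem LFS.quot {G : Type*} [Group G] (h : LFS G) (N : Subgroup G) [N.Normal] : LFS (G ⧸ N) := by
  classical
  rintro K ⟨S, hS⟩
  let T : Finset G := S.image Quotient.out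
  have hT : (Subgroup.closure (T : Set G)).map (QuotientGroup.mk' N) = K := by
    rw [MonoidHom.map_closure, ← hS]
    congr 1
    ext x
    constructor
    · rintro ⟨_, hy, rfl⟩
      obtain ⟨z, hz, rfl⟩ := Finset.mem_image.mp (Finset.mem_coe.mp hy)
      rw [QuotientGroup.mk'_apply, QuotientGroup.out_eq']
      exact hz
    · intro hx
      exact ⟨_, Finset.mem_coe.mpr (Finset.mem_image_of_mem _ hx), QuotientGroup.out_eq' x⟩
  obtain ⟨h1, h2⟩ := h (Subgroup.closure (T : Set G)) ⟨T, rfl⟩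
  rw [← hT]
  let f : Subgroup.closure (T : Set G) →*
      (Subgroup.closure (T : Set G)).map (QuotientGroup.mk' N) :=
    (QuotientGroup.mk' N).subgroupMap _
  have hf : Function.Surjective f := (QuotientGroup.mk' N).subgroupMap_surjective _
  exact ⟨Finite.of_surjective f hf, Group.isSolvable_of_surjective hf⟩

theorem hkk (L : Type*) [Group L] [Infinite L]
    (hls : ∀ K : Subgroup L, K.FG → Finite K ∧ Group.IsSolvable K) :
    ∃ S : Set L, S.Infinite ∧ ∀ x ∈ S, ∀ y ∈ S, x * y = y * x := by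
  classical
  by_contra hno
  have hfin : ∀ S : Set L, (∀ x ∈ S, ∀ y ∈ S, x * y = y * x) → S.Finite := by
    intro S hS
    by_contra h
    exact hno ⟨S, h, hS⟩
  obtain ⟨A, -, hA⟩ := zorn_subset_nonempty
    {A : Set L | (∀ x ∈ A, ∀ y ∈ A, x * y = y * x) ∧
      ((Subgroup.centralizer A : Subgroup L) : Set L).Infinite} (by
    intro c hc hch hne
    have h1 : ∀ x ∈ ⋃₀ c, ∀ y ∈ ⋃₀ c, x * y = y * x := by
      rintro x ⟨s, hs, hx⟩ y ⟨t, ht, hy⟩
      rcases hch.total hs ht with hst | hts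
      · exact (hc ht).1 x (hst hx) y hy
      · exact (hc hs).1 x hx y (hts hy)
    have h2 : (⋃₀ c).Finite := hfin _ h1
    have h3 : ∃ s ∈ c, ⋃₀ c ⊆ s :=
      hch.directedOn.exists_mem_subset_of_finite_of_subset_sUnion hne h2 subset_rfl
    obtain ⟨s, hs, hcs⟩ := h3
    have h4 : ⋃₀ c = s := Set.Subset.antisymm hcs (Set.subset_sUnion_of_mem hs)
    refine ⟨⋃₀ c, ?_, fun t ht => Set.subset_sUnion_of_mem ht⟩
    rw [h4]
    exact hc hs) ∅ (by
    refine ⟨fun x hx => absurd hx (Set.notMem_empty x), ?_⟩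
    have h1 : (Subgroup.centralizer (∅ : Set L)) = ⊤ := by
      rw [eq_top_iff]
      intro x _
      rw [Subgroup.mem_centralizer_iff]
      intro y hy
      exact absurd hy (Set.notMem_empty y)
    rw [h1, Subgroup.coe_top]
    exact Set.infinite_univ)
  obtain ⟨hAc, hAinf⟩ := hA.prop
  set H : Subgroup L := Subgroup.centralizer A with hH
  have hHA : ∀ h ∈ H, ∀ a ∈ A, h * a = a * h := by
    intro h hh a ha
    exact (Subgroup.mem_centralizer_iff.mp hh a ha).symm
  -- elements of `H` with infinite centralizer in `H` are central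
  have hcen : ∀ x : H, ((Subgroup.centralizer {x} : Subgroup H) : Set H).Infinite →
      x ∈ Subgroup.center H := by
    intro x hx
    have h1 : insert (x : L) A ∈ {A : Set L | (∀ x ∈ A, ∀ y ∈ A, x * y = y * x) ∧
        ((Subgroup.centralizer A : Subgroup L) : Set L).Infinite} := by
      constructor
      · rintro a (rfl | ha) b (rfl | hb)
        · rfl
        · exact hHA x x.2 b hb
        · exact (hHA x x.2 a ha).symm
        · exact hAc a ha b hb
      · have h2 : ((Subgroup.centralizer {x} : Subgroup H) : Set H).image Subtype.val ⊆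
            ((Subgroup.centralizer (insert (x : L) A) : Subgroup L) : Set L) := by
          rintro _ ⟨y, hy, rfl⟩
          rw [SetLike.mem_coe, Subgroup.mem_centralizer_iff]
          rintro a (rfl | ha)
          · have h3 := Subgroup.mem_centralizer_singleton_iff.mp hy
            exact (congrArg Subtype.val h3).symm
          · exact (hHA y y.2 a ha).symm
        exact (hx.image Subtype.val_injective.injOn).mono h2
    have h2 : (x : L) ∈ A := hA.le_of_ge h1 (Set.subset_insert _ _) (Set.mem_insert _ _)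
    rw [Subgroup.mem_center_iff]
    intro g
    exact Subtype.ext (hHA g g.2 x h2)
  have hZfin : ((Subgroup.center H : Subgroup H) : Set H).Finite := by
    have h1 := hfin (((Subgroup.center H : Subgroup H) : Set H).image Subtype.val) (by
      rintro _ ⟨x, hx, rfl⟩ _ ⟨y, hy, rfl⟩
      exact congrArg Subtype.val (Subgroup.mem_center_iff.mp hy x))
    exact h1.of_finite_image Subtype.val_injective.injOn
  have : Infinite H := hAinf.to_subtype
  have hZf : Finite (Subgroup.center H) := hZfin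
  have hQ : Infinite (H ⧸ Subgroup.center H) := by
    by_contra h
    rw [not_infinite_iff_finite] at h
    have : Finite H := Finite.of_equiv _
      (Subgroup.groupEquivQuotientProdSubgroup (s := Subgroup.center H)).symm
    exact not_finite H
  refine no_cc (LFS.quot (LFS.sub hls H) (Subgroup.center H)) ?_
  intro x hx
  obtain ⟨y, rfl⟩ := QuotientGroup.mk_surjective x
  have hy : y ∉ Subgroup.center H := fun h => hx ((QuotientGroup.eq_one_iff y).mpr h)
  have hCy : ((Subgroup.centralizer {y} : Subgroup H) : Set H).Finite := by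
    by_contra h
    exact hy (hcen y h)
  have hD : (⋃ z ∈ (((Subgroup.center H : Subgroup H) : Set H)), {g : H | g * y * g⁻¹ = z * y}).Finite := by
    apply hZfin.biUnion
    intro z _
    rcases Set.eq_empty_or_nonempty {g : H | g * y * g⁻¹ = z * y} with h | ⟨g0, hg0⟩
    · rw [h]
      exact Set.finite_empty
    · refine (hCy.image fun c => g0 * c).subset ?_
      intro g hg
      refine ⟨g0⁻¹ * g, ?_, mul_inv_cancel_left g0 g⟩
      rw [SetLike.mem_coe, Subgroup.mem_centralizer_singleton_iff]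
      have h1 : g * y * g⁻¹ = g0 * y * g0⁻¹ := hg.trans hg0.symm
      have h2 : g * y = g0 * y * g0⁻¹ * g := by
        rw [← h1]
        group
      rw [mul_assoc g0⁻¹ g y, h2]
      group
  refine (hD.image (QuotientGroup.mk' (Subgroup.center H))).subset ?_
  intro c hc
  obtain ⟨g, rfl⟩ := QuotientGroup.mk_surjective c
  refine ⟨g, ?_, rfl⟩
  rw [SetLike.mem_coe, Subgroup.mem_centralizer_singleton_iff, ← QuotientGroup.mk_mul,
    ← QuotientGroup.mk_mul, QuotientGroup.eq] at hc
  rw [Set.mem_iUnion₂]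
  refine ⟨g * y * g⁻¹ * y⁻¹, ?_, ?_⟩
  · have h1 := (inferInstance : (Subgroup.center H).Normal).conj_mem _
      ((Subgroup.center H).inv_mem hc) (y * g)
    have h2 : y * g * ((g * y)⁻¹ * (y * g))⁻¹ * (y * g)⁻¹ = g * y * g⁻¹ * y⁻¹ := by group
    rw [h2] at h1
    exact h1
  · show g * y * g⁻¹ = g * y * g⁻¹ * y⁻¹ * y
    group

end Pool.Agent.H22.CIG
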