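import Pool.Agent.Helper22_CIG.FullGroup

/-!
Crossings of a cut and stabilizers of half orbits for groups acting by piecewise powers of a
minimal homeomorphism.
-/

namespace Pool.Agent.H22.CIG

set_option linter.unusedSectionVars false

open Filter Topology Pool.Agent.H50.CIG Pool.Agent.H67.CIP

variable {X : Type*} [TopologicalSpace X]

namespace Piece

variable {T : X ≃ₜ X} {G : Type*} [Group G] [MulAction G X] (p : Piece T G)

/-- `g` maps the half orbit of `x` onto itself -/
def Keeps (x : X) (g : G) : Prop := ∀ j : ℤ, 0 ≤ j ↔ 0 ≤ j + p.n g ((T ^ j) x)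

theorem smul_zpow (g : G) (j : ℤ) (x : X) :
    g • (T ^ j) x = (T ^ (p.n g ((T ^ j) x) + j)) x := by
  rw [zpow_add_apply, ← p.eq]

/-- the stabilizer of the half orbit -/
def keep (x : X) : Subgroup G where
  carrier := {g | p.Keeps x g}
  one_mem' := by
    intro j
    rw [p.one, add_zero]
  mul_mem' := by
    intro g h hg hh j
    have h1 := hh j
    have h2 := hg (p.n h ((T ^ j) x) + j)
    rw [p.mul, p.smul_zpow]
    rw [h1, add_comm, h2]
    have e : p.n h ((T ^ j) x) + j + p.n g ((T ^ (p.n h ((T ^ j) x) + j)) x) =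
        j + (p.n g ((T ^ (p.n h ((T ^ j) x) + j)) x) + p.n h ((T ^ j) x)) := by ring
    rw [e]
  inv_mem' := by
    intro g hg j
    have h2 := hg (p.n g⁻¹ ((T ^ j) x) + j)
    have h3 := p.inv g⁻¹ ((T ^ j) x)
    rw [inv_inv, p.smul_zpow] at h3
    rw [h3] at h2
    have e : p.n g⁻¹ ((T ^ j) x) + j + -p.n g⁻¹ ((T ^ j) x) = j := by ring
    rw [e] at h2
    rw [← h2, add_comm]

theorem mem_keep (x : X) (g : G) : g ∈ p.keep x ↔ p.Keeps x g := Iff.rfl

theorem keeps_range {g : G} {R : ℕ} (hR : ∀ x, |p.n g x| ≤ (R : ℤ)) (x : X) (j : ℤ)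
    (h : ¬ (0 ≤ j ↔ 0 ≤ j + p.n g ((T ^ j) x))) : j ∈ Finset.Ico (-(R : ℤ)) R := by
  have h1 := abs_le.mp (hR ((T ^ j) x))
  rw [Finset.mem_Ico]
  by_cases hj : 0 ≤ j
  · have h2 : ¬ 0 ≤ j + p.n g ((T ^ j) x) := fun h' => h (iff_of_true hj h')
    constructor <;> omega
  · have h2 : 0 ≤ j + p.n g ((T ^ j) x) := by
      by_contra h'
      exact h (iff_of_false hj h')
    constructor <;> omega

theorem cross_le [CompactSpace X] (μ : IMean (T : X → X)) (g : G) :
    μ.I ({x | ¬ p.Keeps x g}.indicator (fun _ => (1 : ℝ))) ≤ p.N μ g := by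
  classical
  obtain ⟨R, hR⟩ := cont_bound (p.n g) (p.cont g)
  let F : ℤ → X → ℝ := fun j => {y | ¬ (0 ≤ j ↔ 0 ≤ j + p.n g y)}.indicator (fun _ => (1 : ℝ))
  have hF : ∀ j, Bd (F j) := fun j => Bd.ind _
  have hF0 : ∀ j y, 0 ≤ F j y := fun j y => Set.indicator_nonneg (fun _ _ => zero_le_one) y
  have h1 : ∀ x, {x | ¬ p.Keeps x g}.indicator (fun _ => (1 : ℝ)) x ≤
      ∑ j ∈ Finset.Ico (-(R : ℤ)) R, F j ((T ^ j) x) := by
    intro x
    by_cases hx : p.Keeps x g
    · rw [Set.indicator_of_notMem]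
      · exact Finset.sum_nonneg fun j _ => hF0 j _
      · intro h
        exact h hx
    · rw [Set.indicator_of_mem hx]
      have hx' := hx
      unfold Keeps at hx'
      rw [not_forall] at hx'
      obtain ⟨j, hj⟩ := hx'
      have h2 := p.keeps_range hR x j hj
      have h3 : F j ((T ^ j) x) = 1 := Set.indicator_of_mem (show (T ^ j) x ∈
        {y | ¬ (0 ≤ j ↔ 0 ≤ j + p.n g y)} from hj) _
      rw [← h3]
      exact Finset.single_le_sum (f := fun j => F j ((T ^ j) x)) (fun j _ => hF0 j _) h2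
  have h2 : ∀ y, ∑ j ∈ Finset.Ico (-(R : ℤ)) R, F j y ≤ |(p.n g y : ℝ)| := by
    intro y
    have h3 : ∀ j, F j y = if ¬ (0 ≤ j ↔ 0 ≤ j + p.n g y) then 1 else 0 := by
      intro j
      show {y | ¬ (0 ≤ j ↔ 0 ≤ j + p.n g y)}.indicator (fun _ => (1 : ℝ)) y = _
      rw [Set.indicator_apply]
      rfl
    rw [Finset.sum_congr rfl fun j _ => h3 j, Finset.sum_boole]
    have h4 : (Finset.Ico (-(R : ℤ)) R).filter (fun j => ¬ (0 ≤ j ↔ 0 ≤ j + p.n g y)) ⊆
        Finset.Ico (min 0 (-p.n g y)) (max 0 (-p.n g y)) := by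
      intro j hj
      have hj' := (Finset.mem_filter.mp hj).2
      rw [Finset.mem_Ico]
      by_cases hj0 : 0 ≤ j
      · have h5 : ¬ 0 ≤ j + p.n g y := fun h' => hj' (iff_of_true hj0 h')
        constructor
        · exact (min_le_left _ _).trans hj0
        · exact lt_of_lt_of_le (by omega) (le_max_right _ _)
      · have h5 : 0 ≤ j + p.n g y := by
          by_contra h'
          exact hj' (iff_of_false hj0 h')
        constructor
        · exact (min_le_right _ _).trans (by omega)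
        · exact lt_of_lt_of_le (by omega) (le_max_left _ _)
    have h5 := Finset.card_le_card h4
    rw [Int.card_Ico] at h5
    have h6 : ((max 0 (-p.n g y) - min 0 (-p.n g y)).toNat : ℤ) = |p.n g y| := by
      rw [Int.toNat_of_nonneg (sub_nonneg.mpr min_le_max), max_sub_min_eq_abs]
      simp
    have h7 : (((Finset.Ico (-(R : ℤ)) R).filter
        (fun j => ¬ (0 ≤ j ↔ 0 ≤ j + p.n g y))).card : ℤ) ≤ |p.n g y| := by
      rw [← h6]
      exact_mod_cast h5
    exact_mod_cast h7
  calc μ.I ({x | ¬ p.Keeps x g}.indicator (fun _ => (1 : ℝ))) ≤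
        μ.I (fun x => ∑ j ∈ Finset.Ico (-(R : ℤ)) R, F j ((T ^ j) x)) :=
        μ.mono _ _ (Bd.ind _)
          (Bd.sum _ (fun j x => F j ((T ^ j) x)) fun j _ => (hF j).comp _) h1
    _ = ∑ j ∈ Finset.Ico (-(R : ℤ)) R, μ.I (fun x => F j ((T ^ j) x)) :=
        μ.sum _ (fun j x => F j ((T ^ j) x)) fun j _ => (hF j).comp _
    _ = ∑ j ∈ Finset.Ico (-(R : ℤ)) R, μ.I (F j) :=
        Finset.sum_congr rfl fun j _ => μ.zpow j (F j) (hF j)
    _ = μ.I (fun y => ∑ j ∈ Finset.Ico (-(R : ℤ)) R, F j y) := (μ.sum _ F fun j _ => hF j).symm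
    _ ≤ p.N μ g := μ.mono _ _ (Bd.sum _ F fun j _ => hF j) (p.bd g) h2

theorem isClopen_cond (g : G) (j : ℤ) : IsClopen {x | 0 ≤ j ↔ 0 ≤ j + p.n g ((T ^ j) x)} := by
  have h1 : Continuous fun x => p.n g ((T ^ j) x) := (p.cont g).comp (T ^ j).continuous
  exact (isClopen_discrete {k : ℤ | 0 ≤ j ↔ 0 ≤ j + k}).preimage h1

theorem isClosed_keeps (g : G) : IsClosed {x | p.Keeps x g} := by
  have h1 : {x | p.Keeps x g} = ⋂ j : ℤ, {x | 0 ≤ j ↔ 0 ≤ j + p.n g ((T ^ j) x)} := by
    ext x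
    rw [Set.mem_iInter]
    rfl
  rw [h1]
  exact isClosed_iInter fun j => (p.isClopen_cond g j).isClosed

theorem isOpen_keeps [CompactSpace X] (g : G) : IsOpen {x | p.Keeps x g} := by
  obtain ⟨R, hR⟩ := cont_bound (p.n g) (p.cont g)
  have h1 : {x | p.Keeps x g} =
      ⋂ j ∈ Finset.Ico (-(R : ℤ)) R, {x | 0 ≤ j ↔ 0 ≤ j + p.n g ((T ^ j) x)} := by
    ext x
    simp only [Set.mem_iInter]
    constructor
    · intro h j _
      exact h j
    · intro h j
      by_contra hj
      exact hj (h j (p.keeps_range hR x j hj))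
  rw [h1]
  exact isOpen_biInter_finset fun j _ => (p.isClopen_cond g j).isOpen

/-- a sequence with small mean displacements keeps some half orbit -/
theorem exists_point [CompactSpace X] (μ : IMean (T : X → X)) (b : ℕ → G)
    (h : ∀ J : ℕ, ∑ j ∈ Finset.range J, p.N μ (b j) < 1) : ∃ x, ∀ j, p.Keeps x (b j) := by
  classical
  have h1 : (⋂ J : ℕ, {x | ∀ j < J, p.Keeps x (b j)}).Nonempty := by
    apply IsCompact.nonempty_iInter_of_sequence_nonempty_isCompact_isClosed
    · intro J x hx j hj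
      exact hx j (Nat.lt_succ_of_lt hj)
    · intro J
      by_contra hemp
      rw [Set.not_nonempty_iff_eq_empty] at hemp
      have h2 : ∀ x, (1 : ℝ) ≤ ∑ j ∈ Finset.range J,
          {x | ¬ p.Keeps x (b j)}.indicator (fun _ => (1 : ℝ)) x := by
        intro x
        have h3 : x ∉ {x | ∀ j < J, p.Keeps x (b j)} := by
          rw [hemp]
          exact Set.notMem_empty x
        have h4 : ∃ j < J, ¬ p.Keeps x (b j) := by
          by_contra hno
          push Not at hno
          exact h3 hno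
        obtain ⟨j, hj, hjx⟩ := h4
        have h5 : {x | ¬ p.Keeps x (b j)}.indicator (fun _ => (1 : ℝ)) x = 1 :=
          Set.indicator_of_mem (show x ∈ {x | ¬ p.Keeps x (b j)} from hjx) _
        refine h5.symm.le.trans ?_
        exact Finset.single_le_sum
          (f := fun j => {x | ¬ p.Keeps x (b j)}.indicator (fun _ => (1 : ℝ)) x)
          (fun j _ => Set.indicator_nonneg (fun _ _ => zero_le_one) x) (Finset.mem_range.mpr hj)
      have h3 := μ.mono _ _ (Bd.const 1) (Bd.sum _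
        (fun j x => {x | ¬ p.Keeps x (b j)}.indicator (fun _ => (1 : ℝ)) x)
        fun j _ => Bd.ind _) h2
      rw [μ.one, μ.sum _ (fun j x => {x | ¬ p.Keeps x (b j)}.indicator (fun _ => (1 : ℝ)) x)
        fun j _ => Bd.ind _] at h3
      have h4 : ∑ j ∈ Finset.range J,
          μ.I (fun x => {x | ¬ p.Keeps x (b j)}.indicator (fun _ => (1 : ℝ)) x) ≤
          ∑ j ∈ Finset.range J, p.N μ (b j) :=
        Finset.sum_le_sum fun j _ => p.cross_le μ (b j)
      have h5 := h J
      linarith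
    · have h2 : {x | ∀ j < 0, p.Keeps x (b j)} = Set.univ := by
        ext x
        simp
      rw [h2]
      exact isCompact_univ
    · intro J
      have h2 : {x | ∀ j < J, p.Keeps x (b j)} =
          ⋂ j ∈ Finset.range J, {x | p.Keeps x (b j)} := by
        ext x
        simp
      rw [h2]
      exact isClosed_biInter fun j _ => p.isClosed_keeps (b j)
  obtain ⟨x, hx⟩ := h1
  refine ⟨x, fun j => ?_⟩
  have h2 := (Set.mem_iInter.mp hx) (j + 1)
  exact h2 j (Nat.lt_succ_self j)

/-- the stabilizer of a half orbit is locally finite -/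
theorem keep_locFin [CompactSpace X] [FaithfulSMul G X]
    (hT : ∀ x : X, Dense (Set.range fun i : ℤ => (T ^ i) x)) (x : X) : LocFin (p.keep x) := by
  classical
  intro s hs
  let V : Set X := ⋂ g ∈ s, {y | p.Keeps y g}
  have hV : IsOpen V := isOpen_biInter_finset fun g _ => p.isOpen_keeps g
  have hxV : x ∈ V := Set.mem_iInter₂.mpr fun g hg => hs g hg
  obtain ⟨L, hL⟩ := syndetic T hT V hV ⟨x, hxV⟩
  have hVk : ∀ y ∈ V, ∀ k ∈ Subgroup.closure (s : Set G), p.Keeps y k := by
    intro y hy k hk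
    have h1 : Subgroup.closure (s : Set G) ≤ p.keep y := by
      rw [Subgroup.closure_le]
      intro g hg
      exact Set.mem_iInter₂.mp hy g hg
    exact h1 hk
  -- bounded displacement
  have hM : ∀ k ∈ Subgroup.closure (s : Set G), ∀ z, p.n k z ∈
      Finset.Icc (-(2 * L + 1 : ℤ)) (2 * L + 1) := by
    intro k hk z
    obtain ⟨i, hi, hiV⟩ := hL ((T ^ (-(L + 1 : ℤ))) z)
    obtain ⟨j, hj, hjV⟩ := hL ((T ^ (L + 1 : ℤ)) z)
    rw [← zpow_add_apply] at hiV hjV
    have h1 := hVk _ hiV k hk (-(i + -(L + 1 : ℤ)))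
    have h2 := hVk _ hjV k hk (-(j + (L + 1 : ℤ)))
    rw [← zpow_add_apply, neg_add_cancel] at h1 h2
    have h3 : (T ^ (0 : ℤ)) z = z := by
      rw [zpow_zero]
      rfl
    rw [h3] at h1 h2
    have hi' := abs_le.mp hi
    have hj' := abs_le.mp hj
    rw [Finset.mem_Icc]
    constructor
    · have h4 := h1.mp (by omega)
      omega
    · by_contra hcon
      have h4 := h2.mpr (by omega)
      omega
  -- the types
  let ι := Finset.Icc (-(2 * L + 1 : ℤ)) (2 * L + 1)
  let t : X → (s → ι → ℤ × ℤ) := fun z g i =>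
    (p.n (g : G) ((T ^ (i : ℤ)) z), p.n (g : G)⁻¹ ((T ^ (i : ℤ)) z))
  have htc : Continuous t := by
    refine continuous_pi fun g => continuous_pi fun i => ?_
    exact ((p.cont _).comp (T ^ (i : ℤ)).continuous).prodMk
      ((p.cont _).comp (T ^ (i : ℤ)).continuous)
  have htf : (Set.range t).Finite := (isCompact_range htc).finite_of_discrete
  have key : ∀ z z', t z = t z' → ∀ k ∈ Subgroup.closure (s : Set G), p.n k z = p.n k z' := by
    intro z z' hzz k hk
    induction hk using Subgroup.closure_induction_left with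
    | one => rw [p.one, p.one]
    | mul_left g hg y hy ih =>
      have h1 := congrFun (congrFun hzz ⟨g, hg⟩) ⟨p.n y z, hM y hy z⟩
      have h2 : p.n g ((T ^ p.n y z) z) = p.n g ((T ^ p.n y z) z') := (Prod.mk.inj h1).1
      rw [p.mul, p.mul, p.eq y z, p.eq y z', h2, ih]
    | inv_mul_cancel g hg y hy ih =>
      have h1 := congrFun (congrFun hzz ⟨g, hg⟩) ⟨p.n y z, hM y hy z⟩
      have h2 : p.n g⁻¹ ((T ^ p.n y z) z) = p.n g⁻¹ ((T ^ p.n y z) z') := (Prod.mk.inj h1).2
      rw [p.mul, p.mul, p.eq y z, p.eq y z', h2, ih]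
  have hfin : Finite (Set.range t) := htf
  have hrep : ∀ τ : Set.range t, ∃ z, t z = τ := fun τ => τ.2
  choose rep hrep using hrep
  have hres : Finite (Subgroup.closure (s : Set G)) := by
    apply Finite.of_injective (β := Set.range t → ι)
      (fun (k : Subgroup.closure (s : Set G)) (τ : Set.range t) =>
        (⟨p.n (k : G) (rep τ), hM (k : G) k.2 (rep τ)⟩ : ι))
    intro k l hkl
    apply Subtype.ext
    apply FaithfulSMul.eq_of_smul_eq_smul (α := X)
    intro z
    have h1 : p.n (k : G) (rep ⟨t z, z, rfl⟩) = p.n (l : G) (rep ⟨t z, z, rfl⟩) :=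
      congrArg Subtype.val (congrFun hkl ⟨t z, z, rfl⟩)
    have h2 : t (rep ⟨t z, z, rfl⟩) = t z := hrep ⟨t z, z, rfl⟩
    rw [key _ _ h2 k k.2, key _ _ h2 l l.2] at h1
    rw [p.eq, p.eq, h1]
  exact hres

end Piece

end Pool.Agent.H22.CIG
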