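import Pool.Agent.Helper22_CIG.Alternative

/-!
Invariant means of a homeomorphism, and their invariance under maps that are piecewise powers of
the homeomorphism.
-/

namespace Pool.Agent.H22.CIG

open Filter Topology

/-- bounded functions -/
def Bd {X : Type*} (f : X → ℝ) : Prop := ∃ C : ℝ, ∀ x, |f x| ≤ C

namespace Bd

variable {X : Type*} {f g : X → ℝ}

theorem const (c : ℝ) : Bd (fun _ : X => c) := ⟨|c|, fun _ => le_rfl⟩

theorem add (hf : Bd f) (hg : Bd g) : Bd (fun x => f x + g x) := by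
  obtain ⟨C, hC⟩ := hf
  obtain ⟨D, hD⟩ := hg
  exact ⟨C + D, fun x => (abs_add_le _ _).trans (add_le_add (hC x) (hD x))⟩

theorem mul (hf : Bd f) (hg : Bd g) : Bd (fun x => f x * g x) := by
  obtain ⟨C, hC⟩ := hf
  obtain ⟨D, hD⟩ := hg
  refine ⟨C * D, fun x => ?_⟩
  rw [abs_mul]
  exact mul_le_mul (hC x) (hD x) (abs_nonneg _) ((abs_nonneg _).trans (hC x))

theorem comp {Y : Type*} (hf : Bd f) (φ : Y → X) : Bd (fun y => f (φ y)) := by
  obtain ⟨C, hC⟩ := hf
  exact ⟨C, fun y => hC (φ y)⟩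

theorem ind (S : Set X) : Bd (S.indicator (fun _ => (1 : ℝ))) := by
  refine ⟨1, fun x => ?_⟩
  by_cases hx : x ∈ S
  · rw [Set.indicator_of_mem hx]
    simp
  · rw [Set.indicator_of_notMem hx]
    simp

theorem sum {ι : Type*} (s : Finset ι) (F : ι → X → ℝ) (h : ∀ i ∈ s, Bd (F i)) :
    Bd (fun x => ∑ i ∈ s, F i x) := by
  classical
  induction s using Finset.induction_on with
  | empty =>
    simp only [Finset.sum_empty]
    exact const 0
  | insert a s ha ih =>
    simp only [Finset.sum_insert ha]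
    exact (h a (Finset.mem_insert_self a s)).add
      (ih fun i hi => h i (Finset.mem_insert_of_mem hi))

end Bd

/-- an invariant mean of a map -/
structure IMean {X : Type*} (T : X → X) where
  I : (X → ℝ) → ℝ
  add : ∀ f g, Bd f → Bd g → I (fun x => f x + g x) = I f + I g
  smul : ∀ (c : ℝ) (f), Bd f → I (fun x => c * f x) = c * I f
  mono : ∀ f g, Bd f → Bd g → (∀ x, f x ≤ g x) → I f ≤ I g
  one : I (fun _ => 1) = 1
  inv : ∀ f, Bd f → I (fun x => f (T x)) = I f

theorem exists_iMean {X : Type*} (T : X → X) (x₀ : X) : Nonempty (IMean T) := by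
  classical
  let c : (X → ℝ) → ℕ → ℝ := fun f N => (∑ i ∈ Finset.range N, f (T^[i] x₀)) / N
  have hc : ∀ f C, (∀ x, |f x| ≤ C) → ∀ N, |c f N| ≤ C := by
    intro f C hC N
    show |(∑ i ∈ Finset.range N, f (T^[i] x₀)) / (N : ℝ)| ≤ C
    have hC0 : 0 ≤ C := (abs_nonneg _).trans (hC x₀)
    rw [abs_div, Nat.abs_cast]
    rcases Nat.eq_zero_or_pos N with h | h
    · subst h
      simpa using hC0
    · have hN : (0 : ℝ) < N := by exact_mod_cast h
      rw [div_le_iff₀ hN]
      calc |∑ i ∈ Finset.range N, f (T^[i] x₀)| ≤ ∑ i ∈ Finset.range N, |f (T^[i] x₀)| :=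
            Finset.abs_sum_le_sum_abs _ _
        _ ≤ ∑ _i ∈ Finset.range N, C := Finset.sum_le_sum fun i _ => hC _
        _ = C * N := by
            rw [Finset.sum_const, Finset.card_range, nsmul_eq_mul, mul_comm]
  let U : Ultrafilter ℕ := Ultrafilter.of atTop
  have hU : (U : Filter ℕ) ≤ atTop := Ultrafilter.of_le _
  have hlim : ∀ f : X → ℝ, ∃ y : ℝ, Bd f → Tendsto (c f) U (𝓝 y) := by
    intro f
    by_cases hf : Bd f
    · obtain ⟨C, hC⟩ := hf
      have h1 : ((U.map (c f) : Ultrafilter ℝ) : Filter ℝ) ≤ 𝓟 (Set.Icc (-C) C) := by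
        rw [Ultrafilter.coe_map, le_principal_iff, mem_map]
        filter_upwards with n
        exact Set.mem_Icc.mpr (abs_le.mp (hc f C hC n))
      obtain ⟨y, -, hy⟩ := isCompact_Icc.ultrafilter_le_nhds (U.map (c f)) h1
      exact ⟨y, fun _ => hy⟩
    · exact ⟨0, fun h => absurd h hf⟩
  choose I hI using hlim
  refine ⟨{ I := I, add := ?_, smul := ?_, mono := ?_, one := ?_, inv := ?_ }⟩
  · intro f g hf hg
    apply tendsto_nhds_unique (hI _ (hf.add hg))
    refine ((hI f hf).add (hI g hg)).congr fun N => ?_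
    show (∑ i ∈ Finset.range N, f (T^[i] x₀)) / (N : ℝ) +
      (∑ i ∈ Finset.range N, g (T^[i] x₀)) / (N : ℝ) =
      (∑ i ∈ Finset.range N, (f (T^[i] x₀) + g (T^[i] x₀))) / (N : ℝ)
    rw [← add_div, Finset.sum_add_distrib]
  · intro a f hf
    apply tendsto_nhds_unique (hI _ ((Bd.const a).mul hf))
    refine ((hI f hf).const_mul a).congr fun N => ?_
    show a * ((∑ i ∈ Finset.range N, f (T^[i] x₀)) / (N : ℝ)) =
      (∑ i ∈ Finset.range N, (a * f (T^[i] x₀))) / (N : ℝ)
    rw [← Finset.mul_sum, mul_div_assoc]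
  · intro f g hf hg hfg
    refine le_of_tendsto_of_tendsto' (hI f hf) (hI g hg) fun N => ?_
    exact div_le_div_of_nonneg_right (Finset.sum_le_sum fun i _ => hfg _) (Nat.cast_nonneg N)
  · apply tendsto_nhds_unique (hI _ (Bd.const 1))
    apply tendsto_const_nhds.congr'
    have h1 : ∀ᶠ N : ℕ in atTop, 1 ≤ N := eventually_ge_atTop 1
    filter_upwards [hU h1] with N hN
    show 1 = (∑ i ∈ Finset.range N, (1 : ℝ)) / (N : ℝ)
    have hN' : (N : ℝ) ≠ 0 := by
      have : (0 : ℝ) < N := by exact_mod_cast hN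
      exact this.ne'
    simp [hN']
  · intro f hf
    have hf' := hf
    obtain ⟨C, hC⟩ := hf'
    apply tendsto_nhds_unique (hI _ (hf.comp T))
    have h1 : Tendsto (fun N : ℕ => c (fun x => f (T x)) N - c f N) U (𝓝 0) := by
      have h2 : Tendsto (fun N : ℕ => 2 * C / (N : ℝ)) atTop (𝓝 0) :=
        tendsto_const_div_atTop_nhds_zero_nat _
      apply squeeze_zero_norm _ (h2.mono_left hU)
      intro N
      rw [Real.norm_eq_abs]
      show |(∑ i ∈ Finset.range N, f (T (T^[i] x₀))) / (N : ℝ) -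
        (∑ i ∈ Finset.range N, f (T^[i] x₀)) / (N : ℝ)| ≤ 2 * C / (N : ℝ)
      rw [← sub_div, abs_div, Nat.abs_cast]
      apply div_le_div_of_nonneg_right _ (Nat.cast_nonneg N)
      have h3 : ∑ i ∈ Finset.range N, f (T (T^[i] x₀)) - ∑ i ∈ Finset.range N, f (T^[i] x₀) =
          f (T^[N] x₀) - f x₀ := by
        rw [← Finset.sum_sub_distrib]
        have h4 : ∀ i, f (T (T^[i] x₀)) - f (T^[i] x₀) =
            (fun i => f (T^[i] x₀)) (i + 1) - (fun i => f (T^[i] x₀)) i := by
          intro i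
          show f (T (T^[i] x₀)) - f (T^[i] x₀) = f (T^[i + 1] x₀) - f (T^[i] x₀)
          rw [Function.iterate_succ_apply']
        rw [Finset.sum_congr rfl fun i _ => h4 i]
        exact Finset.sum_range_sub (fun i => f (T^[i] x₀)) N
      rw [h3]
      calc |f (T^[N] x₀) - f x₀| ≤ |f (T^[N] x₀)| + |f x₀| := abs_sub _ _
        _ ≤ C + C := add_le_add (hC _) (hC _)
        _ = 2 * C := by ring
    have h2 := h1.add (hI f hf)
    rw [zero_add] at h2
    refine h2.congr fun N => ?_
    ring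

namespace IMean

variable {X : Type*} {T : X → X} (μ : IMean T)

theorem sum {ι : Type*} (s : Finset ι) (F : ι → X → ℝ) (h : ∀ i ∈ s, Bd (F i)) :
    μ.I (fun x => ∑ i ∈ s, F i x) = ∑ i ∈ s, μ.I (F i) := by
  classical
  induction s using Finset.induction_on with
  | empty =>
    simp only [Finset.sum_empty]
    have h1 := μ.smul 0 (fun _ => 1) (Bd.const 1)
    simp only [zero_mul] at h1
    exact h1
  | insert a s ha ih =>
    simp only [Finset.sum_insert ha]
    rw [μ.add _ _ (h a (Finset.mem_insert_self a s))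
      (Bd.sum s F fun i hi => h i (Finset.mem_insert_of_mem hi)),
      ih fun i hi => h i (Finset.mem_insert_of_mem hi)]

theorem zero : μ.I (fun _ => 0) = 0 := by
  have h1 := μ.smul 0 (fun _ => 1) (Bd.const 1)
  simp only [zero_mul] at h1
  exact h1

theorem nonneg (f : X → ℝ) (hf : Bd f) (h : ∀ x, 0 ≤ f x) : 0 ≤ μ.I f := by
  rw [← μ.zero]
  exact μ.mono _ _ (Bd.const 0) hf h

/-- a finitely additive probability with a density -/
noncomputable def weighted (w : X → ℝ) (hw : Bd w) (h0 : ∀ x, 0 ≤ w x) (hpos : 0 < μ.I w) :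
    FAP X where
  m := fun S => μ.I (fun x => S.indicator (fun _ => (1 : ℝ)) x * w x) / μ.I w
  nonneg := by
    intro A
    apply div_nonneg _ hpos.le
    apply μ.nonneg _ ((Bd.ind A).mul hw)
    intro x
    exact mul_nonneg (Set.indicator_nonneg (fun _ _ => zero_le_one) x) (h0 x)
  univ := by
    rw [Set.indicator_univ]
    simp only [one_mul]
    exact div_self hpos.ne'
  add := by
    intro A B hAB
    rw [← add_div, ← μ.add _ _ ((Bd.ind A).mul hw) ((Bd.ind B).mul hw)]
    congr 2
    funext x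
    rw [Set.indicator_union_of_disjoint hAB]
    ring

end IMean

/-- the mean of a homeomorphism is invariant under the powers -/
theorem IMean.zpow {X : Type*} [TopologicalSpace X] {T : X ≃ₜ X} (μ : IMean (T : X → X)) (k : ℤ)
    (f : X → ℝ) (hf : Bd f) : μ.I (fun x => f ((T ^ k) x)) = μ.I f := by
  induction k using Int.induction_on with
  | zero => rfl
  | succ k ih =>
    have h1 := μ.inv (fun x => f ((T ^ (k : ℤ)) x)) (hf.comp _)
    have h2 : (fun x => f ((T ^ ((k : ℤ) + 1)) x)) = fun x => f ((T ^ (k : ℤ)) (T x)) := by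
      funext x
      rw [zpow_add_one, Homeomorph.mul_apply]
    rw [← ih, ← h1, h2]
  | pred k ih =>
    have h1 := μ.inv (fun x => f ((T ^ (-(k : ℤ) - 1)) x)) (hf.comp _)
    have h2 : (fun x => f ((T ^ (-(k : ℤ) - 1)) (T x))) = fun x => f ((T ^ (-(k : ℤ))) x) := by
      funext x
      rw [← Homeomorph.mul_apply, ← zpow_add_one, sub_add_cancel]
    rw [← ih, ← h1, h2]

/-- invariance under piecewise powers -/
theorem IMean.piecewise {X : Type*} [TopologicalSpace X] {T : X ≃ₜ X} (μ : IMean (T : X → X))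
    (φ : X → X) (hφ : Function.Bijective φ) (n : X → ℤ) (R : ℤ) (hR : ∀ x, |n x| ≤ R)
    (hn : ∀ x, φ x = (T ^ n x) x) (f : X → ℝ) (hf : Bd f) :
    μ.I (fun x => f (φ x)) = μ.I f := by
  classical
  let F : ℤ → X → ℝ := fun k y => {y | n ((T ^ (-k)) y) = k}.indicator (fun _ => (1 : ℝ)) y * f y
  have hF : ∀ k, Bd (F k) := fun k => (Bd.ind _).mul hf
  have hTT : ∀ (k : ℤ) (x : X), (T ^ (-k)) ((T ^ k) x) = x := by
    intro k x
    rw [← Homeomorph.mul_apply, ← zpow_add]
    simp
  have hTT' : ∀ (k : ℤ) (x : X), (T ^ k) ((T ^ (-k)) x) = x := by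
    intro k x
    rw [← Homeomorph.mul_apply, ← zpow_add]
    simp
  have h1 : (fun x => f (φ x)) = fun x => ∑ k ∈ Finset.Icc (-R) R, F k ((T ^ k) x) := by
    funext x
    rw [Finset.sum_eq_single (n x)]
    · show f (φ x) = {y | n ((T ^ (-n x)) y) = n x}.indicator (fun _ => (1 : ℝ)) ((T ^ n x) x) *
        f ((T ^ n x) x)
      rw [Set.indicator_of_mem, one_mul, hn]
      show n ((T ^ (-n x)) ((T ^ n x) x)) = n x
      rw [hTT]
    · intro k _ hk
      show {y | n ((T ^ (-k)) y) = k}.indicator (fun _ => (1 : ℝ)) ((T ^ k) x) *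
        f ((T ^ k) x) = 0
      rw [Set.indicator_of_notMem, zero_mul]
      intro h
      have h' : n ((T ^ (-k)) ((T ^ k) x)) = k := h
      rw [hTT] at h'
      exact hk h'.symm
    · intro h
      exfalso
      apply h
      rw [Finset.mem_Icc]
      exact abs_le.mp (hR x)
  have h2 : f = fun y => ∑ k ∈ Finset.Icc (-R) R, F k y := by
    funext y
    obtain ⟨x, rfl⟩ := hφ.2 y
    have hx : (T ^ (-n x)) (φ x) = x := by
      rw [hn, hTT]
    rw [Finset.sum_eq_single (n x)]
    · show f (φ x) = {y | n ((T ^ (-n x)) y) = n x}.indicator (fun _ => (1 : ℝ)) (φ x) *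
        f (φ x)
      rw [Set.indicator_of_mem, one_mul]
      show n ((T ^ (-n x)) (φ x)) = n x
      rw [hx]
    · intro k _ hk
      show {y | n ((T ^ (-k)) y) = k}.indicator (fun _ => (1 : ℝ)) (φ x) * f (φ x) = 0
      rw [Set.indicator_of_notMem, zero_mul]
      intro h
      have h' : n ((T ^ (-k)) (φ x)) = k := h
      have h3 : φ ((T ^ (-k)) (φ x)) = φ x := by
        rw [hn, h', hTT']
      have h4 := hφ.1 h3
      rw [h4] at h'
      exact hk h'.symm
    · intro h
      exfalso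
      apply h
      rw [Finset.mem_Icc]
      exact abs_le.mp (hR x)
  calc μ.I (fun x => f (φ x)) = ∑ k ∈ Finset.Icc (-R) R, μ.I (fun x => F k ((T ^ k) x)) := by
        rw [h1]
        exact μ.sum _ (fun k x => F k ((T ^ k) x)) fun k _ => (hF k).comp _
    _ = ∑ k ∈ Finset.Icc (-R) R, μ.I (F k) :=
        Finset.sum_congr rfl fun k _ => μ.zpow k (F k) (hF k)
    _ = μ.I f := by
        rw [← μ.sum _ F fun k _ => hF k, ← h2]

end Pool.Agent.H22.CIG
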