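import Pool.Agent.Helper67_CIP.HKS
import Pool.Agent.Helper22_CIG.Frequencies

/-!
Amenable groups acting on probability spaces with polynomial lower bounds for the measures of the
supports: if every invariant finitely additive probability gives small measure to the support of
some element with infinitely many conjugates, then there are two infinite commuting subgroups (or
an infinite locally finite subgroup which is not locally soluble).
-/

namespace Pool.Agent.H22.CIG.SmallSupports

open Filter Topology MeasureTheory Pool.Agent.H22.CIG Pool.Agent.H67.CIP Pool.Agent.H50.CIG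

theorem result {G : Type*} [Group G] {X : Type*} [MeasurableSpace X] [MulAction G X]
    (μ : Measure X) [IsProbabilityMeasure μ]
    (hμ : ∀ g : G, MeasurePreserving (fun x : X => g • x) μ μ)
    (hm : ∀ g : G, MeasurableSet {x : X | g • x ≠ x})
    (Ω : ℕ → Finset G) (hΩ : ∀ k, (Ω k).Nonempty)
    (hF : ∀ h : G, Tendsto
      (fun k => ({g : G | g ∈ Ω k ∧ h * g ∉ Ω k}.ncard : ℝ) / (Ω k).card) atTop (𝓝 0))
    (len : G → ℕ) (hmul : ∀ a b : G, len (a * b) ≤ len a + len b)
    (hinv : ∀ a : G, len a⁻¹ = len a)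
    (c : ℝ) (hc : 0 < c) (D : ℕ)
    (hlow : ∀ b : G, (Set.range fun h : G => h⁻¹ * b * h).Infinite →
      c ≤ μ.real {x : X | b • x ≠ x} * ((len b : ℝ) + 1) ^ D)
    (hsmall : ∀ ν : Set X → ℝ, (∀ A, 0 ≤ ν A) → ν Set.univ = 1 →
      (∀ A B, Disjoint A B → ν (A ∪ B) = ν A + ν B) →
      (∀ (g : G) (A : Set X), ν {x | g • x ∈ A} = ν A) →
      ∃ a : G, (Set.range fun h : G => h⁻¹ * a * h).Infinite ∧
        ν {x | a • x ≠ x} < 1 / (3 * 2 ^ D)) :
    (∃ A B : Subgroup G, (A : Set G).Infinite ∧ (B : Set G).Infinite ∧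
      ∀ a ∈ A, ∀ b ∈ B, a * b = b * a) ∨
    ∃ L : Subgroup G, (L : Set G).Infinite ∧
      (∀ s : Finset G, (s : Set G) ⊆ L →
        ((Subgroup.closure (s : Set G) : Subgroup G) : Set G).Finite) ∧
      ∃ P : Subgroup G, P ≤ L ∧ (P : Set G).Finite ∧ ¬ Group.IsSolvable P := by
  classical
  rcases frequencies μ hμ hm Ω hΩ (by
    intro h
    refine (hF h).congr fun k => ?_
    have h1 : {g : G | g ∈ Ω k ∧ h * g ∉ Ω k} =
        (((Ω k).filter fun g => h * g ∉ Ω k : Finset G) : Set G) := by
      ext g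
      simp
    rw [h1, Set.ncard_coe_finset, prop_eq]) len hmul hinv c hc D (by
    intro b hb
    exact hlow b (conj_infinite hb)) (by
    intro m hm
    obtain ⟨a, ha, ha'⟩ := hsmall m.m m.nonneg m.univ m.add hm
    exact ⟨a, not_mem_fc_of_conj_infinite ha, ha'⟩) with h | ⟨L, hL, hinf⟩
  · exact Or.inl h
  · by_cases hsol : ∀ P : Subgroup G, P ≤ L → (P : Set G).Finite → Group.IsSolvable P
    · exact Or.inl (CI.of_locsol L hL hinf hsol)
    · right
      push Not at hsol
      exact ⟨L, hinf, fun s hs => hL s fun x hx => hs hx, hsol⟩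

end Pool.Agent.H22.CIG.SmallSupports
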